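import Pool.Agent.Helper61.GL.Trf
import Pool.Agent.Helper61.GL.Win
import Pool.Agent.Helper46.WF.Ent

/-! Lemma W: law of large numbers for local entropies of a refining sequence of variables. -/

set_option autoImplicit false

namespace Pool.Agent.Helper97.WF

open Finset Pool.Agent.Helper69.RK Pool.Agent.Helper61.GL Pool.Agent.Helper46.WF

variable {Ω α β γ : Type} [Fintype Ω]

/-- refining sequence of variables (on the support) -/
def Ref (μ : Ω → ℝ) (c : ℕ → Ω → α) : Prop :=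
  ∀ l ω ω', μ ω ≠ 0 → μ ω' ≠ 0 → c (l + 1) ω = c (l + 1) ω' → c l ω = c l ω'

omit [Fintype Ω] in
theorem Ref.le {μ : Ω → ℝ} {c : ℕ → Ω → α} (h : Ref μ c) {l l' : ℕ} (hl : l ≤ l') {ω ω' : Ω} (h1 : μ ω ≠ 0)
    (h2 : μ ω' ≠ 0) (e : c l' ω = c l' ω') : c l ω = c l ω' := by
  induction l', hl using Nat.le_induction with
  | base => exact e
  | succ n _ ih => exact ih (h n ω ω' h1 h2 e)

/-- surprisal -/
noncomputable def Su (μ : Ω → ℝ) (c : Ω → α) (ω : Ω) : ℝ := - Real.logb 2 (pr μ c ω)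

theorem Su_congr (μ : Ω → ℝ) (c : Ω → α) {ω ω' : Ω} (h : c ω = c ω') : Su μ c ω = Su μ c ω' := by
  unfold Su
  rw [e1_pr_atom μ c ω ω' h]

theorem Su_mono (μ : Ω → ℝ) (hμ : ∀ ω, 0 ≤ μ ω) (f : Ω → α) (g : Ω → β) (ω : Ω) (hω : μ ω ≠ 0)
    (h : ∀ ω', μ ω' ≠ 0 → f ω' = f ω → g ω' = g ω) : Su μ g ω ≤ Su μ f ω := by
  unfold Su
  have h1 := e1_pr_mono μ f g hμ ω h
  have h2 := e1_pr_pos μ f hμ ω hω
  have h3 := Real.logb_le_logb_of_le (by norm_num : (1 : ℝ) < 2) h2 h1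
  linarith

theorem Su_le (μ : Ω → ℝ) (hμ : ∀ ω, 0 ≤ μ ω) (c : ℕ → Ω → α) (hc : Ref μ c) {l l' : ℕ} (hl : l ≤ l') (ω : Ω)
    (hω : μ ω ≠ 0) : Su μ (c l) ω ≤ Su μ (c l') ω :=
  Su_mono μ hμ (c l') (c l) ω hω (fun _ h1 h2 => hc.le hl h1 hω h2)

/-- surprisal of the window of `R` levels after the level `l` -/
noncomputable def sw (μ : Ω → ℝ) (c : ℕ → Ω → α) (R l : ℕ) (ω : Ω) : ℝ := Su μ (c (l + R)) ω - Su μ (c l) ω

/-- local entropy of the window of `R` levels after the level `l` -/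
noncomputable def ew (μ : Ω → ℝ) (c : ℕ → Ω → α) (R l : ℕ) (ω : Ω) : ℝ := cm μ (c l) ω (sw μ c R l)

theorem sw_nonneg (μ : Ω → ℝ) (hμ : ∀ ω, 0 ≤ μ ω) (c : ℕ → Ω → α) (hc : Ref μ c) (R l : ℕ) (ω : Ω)
    (hω : μ ω ≠ 0) : 0 ≤ sw μ c R l ω := sub_nonneg.mpr (Su_le μ hμ c hc (Nat.le_add_right _ _) ω hω)

theorem cm_mono (μ : Ω → ℝ) (hμ : ∀ ω, 0 ≤ μ ω) (G : Ω → γ) (ω : Ω) (f g : Ω → ℝ)
    (h : ∀ ω', μ ω' ≠ 0 → G ω' = G ω → f ω' ≤ g ω') : cm μ G ω f ≤ cm μ G ω g := by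
  unfold cm
  apply sum_le_sum
  intro ω' _
  by_cases h0 : cw μ G ω ω' = 0
  · rw [h0, zero_mul, zero_mul]
  · obtain ⟨h1, h2⟩ := cw_ne_zero μ G h0
    exact mul_le_mul_of_nonneg_left (h ω' h2 h1) (cw_nonneg μ G hμ ω ω')

theorem cm_ext (μ : Ω → ℝ) (hμ : ∀ ω, 0 ≤ μ ω) (G : Ω → γ) (ω : Ω) (f g : Ω → ℝ)
    (h : ∀ ω', μ ω' ≠ 0 → G ω' = G ω → f ω' = g ω') : cm μ G ω f = cm μ G ω g :=
  le_antisymm (cm_mono μ hμ G ω f g (fun ω' a b => (h ω' a b).le))
    (cm_mono μ hμ G ω g f (fun ω' a b => (h ω' a b).ge))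

theorem cm_const (μ : Ω → ℝ) (hμ : ∀ ω, 0 ≤ μ ω) (G : Ω → γ) (ω : Ω) (hω : μ ω ≠ 0) (a : ℝ) :
    cm μ G ω (fun _ => a) = a := by
  unfold cm
  rw [← sum_mul, cw_sum μ G hμ ω hω, one_mul]

theorem cm_add (μ : Ω → ℝ) (G : Ω → γ) (ω : Ω) (f g : Ω → ℝ) :
    cm μ G ω (fun ω' => f ω' + g ω') = cm μ G ω f + cm μ G ω g := by
  unfold cm
  rw [← sum_add_distrib]
  exact sum_congr rfl (fun ω' _ => by ring)

theorem cm_sub (μ : Ω → ℝ) (G : Ω → γ) (ω : Ω) (f g : Ω → ℝ) :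
    cm μ G ω (fun ω' => f ω' - g ω') = cm μ G ω f - cm μ G ω g := by
  unfold cm
  rw [← sum_sub_distrib]
  exact sum_congr rfl (fun ω' _ => by ring)

theorem cm_mul (μ : Ω → ℝ) (G : Ω → γ) (ω : Ω) (a : ℝ) (f : Ω → ℝ) :
    cm μ G ω (fun ω' => a * f ω') = a * cm μ G ω f := by
  unfold cm
  rw [mul_sum]
  exact sum_congr rfl (fun ω' _ => by ring)

theorem sum_cm (μ : Ω → ℝ) (hμ : ∀ ω, 0 ≤ μ ω) (G : Ω → γ) (f : Ω → ℝ) :
    ∑ ω, μ ω * cm μ G ω f = ∑ ω, μ ω * f ω := sum_cw μ hμ G f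

/-- tower property -/
theorem cm_tower (μ : Ω → ℝ) (hμ : ∀ ω, 0 ≤ μ ω) (G : Ω → γ) (G' : Ω → β) (ω : Ω) (hω : μ ω ≠ 0)
    (h : ∀ ω₁ ω₂, μ ω₁ ≠ 0 → μ ω₂ ≠ 0 → G' ω₁ = G' ω₂ → G ω₁ = G ω₂) (f : Ω → ℝ) :
    cm μ G ω (fun ω' => cm μ G' ω' f) = cm μ G ω f := by
  classical
  have h1 := sum_cm μ hμ G' (fun ω' => (if G ω' = G ω then 1 else 0) * f ω')
  have h2 : ∀ ω', μ ω' * cm μ G' ω' (fun ω'' => (if G ω'' = G ω then 1 else 0) * f ω'') =
      (if G ω' = G ω then μ ω' else 0) * cm μ G' ω' f := by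
    intro ω'
    by_cases h0 : μ ω' = 0
    · rw [h0, zero_mul]; split_ifs <;> rw [zero_mul]
    · have e1 : cm μ G' ω' (fun ω'' => (if G ω'' = G ω then 1 else 0) * f ω'') =
          cm μ G' ω' (fun ω'' => (if G ω' = G ω then 1 else 0) * f ω'') := by
        apply cm_ext μ hμ
        intro ω'' a b
        have : G ω'' = G ω' := h ω'' ω' a h0 b
        rw [this]
      rw [e1, cm_mul]
      split_ifs <;> ring
  rw [sum_congr rfl (fun ω' _ => h2 ω')] at h1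
  have h3 := e1_pr_pos μ G hμ ω hω
  unfold cm at h1 ⊢
  unfold cw
  have e2 : ∀ F : Ω → ℝ, ∑ ω', (if G ω' = G ω then μ ω' else 0) / pr μ G ω * F ω' =
      (∑ ω', (if G ω' = G ω then μ ω' else 0) * F ω') / pr μ G ω := by
    intro F
    rw [sum_div]
    exact sum_congr rfl (fun ω' _ => by ring)
  rw [e2, e2]
  congr 1
  have e3 : ∀ ω', μ ω' * ((if G ω' = G ω then 1 else 0) * f ω') = (if G ω' = G ω then μ ω' else 0) * f ω' := by
    intro ω'
    split_ifs <;> ring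
  rw [sum_congr rfl (fun ω' _ => e3 ω')] at h1
  unfold cw at h1
  exact h1

theorem ew_congr (μ : Ω → ℝ) (c : ℕ → Ω → α) (R l : ℕ) {ω ω' : Ω} (h : c l ω = c l ω') :
    ew μ c R l ω = ew μ c R l ω' := cm_congr μ (c l) h _

theorem ew_nonneg (μ : Ω → ℝ) (hμ : ∀ ω, 0 ≤ μ ω) (c : ℕ → Ω → α) (hc : Ref μ c) (R l : ℕ) (ω : Ω) :
    0 ≤ ew μ c R l ω := by
  unfold ew cm
  apply sum_nonneg
  intro ω' _
  by_cases h0 : cw μ (c l) ω ω' = 0
  · rw [h0, zero_mul]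
  · obtain ⟨_, h2⟩ := cw_ne_zero μ (c l) h0
    exact mul_nonneg (cw_nonneg μ _ hμ ω ω') (sw_nonneg μ hμ c hc R l ω' h2)

/-- the local entropy in the form of `LH` -/
theorem ew_eq_LH (μ : Ω → ℝ) (hμ : ∀ ω, 0 ≤ μ ω) (c : ℕ → Ω → α) (F : Ω → β) (R l : ℕ) (ω : Ω)
    (hF : ∀ ω₁ ω₂, μ ω₁ ≠ 0 → μ ω₂ ≠ 0 → (c (l + R) ω₁ = c (l + R) ω₂ ↔ F ω₁ = F ω₂ ∧ c l ω₁ = c l ω₂)) :
    ew μ c R l ω = LH μ F (c l) ω := by
  unfold ew LH
  apply cm_ext μ hμ
  intro ω' h1 _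
  unfold sw Su
  have e : pr μ (c (l + R)) ω' = pr μ (fun ω'' => (F ω'', c l ω'')) ω' := by
    apply e1_pr_congr
    intro ω'' h2
    rw [Prod.mk.injEq]
    exact hF ω'' ω' h2 h1
  rw [e]
  ring

/-- averages of products with centered differences vanish -/
theorem orth (μ : Ω → ℝ) (hμ : ∀ ω, 0 ≤ μ ω) (c : ℕ → Ω → α) (R l : ℕ) (g : Ω → ℝ)
    (hg : ∀ ω ω', μ ω ≠ 0 → μ ω' ≠ 0 → c l ω = c l ω' → g ω = g ω') :
    ∑ ω, μ ω * (g ω * (sw μ c R l ω - ew μ c R l ω)) = 0 := by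
  rw [← sum_cm μ hμ (c l)]
  apply sum_eq_zero
  intro ω _
  by_cases h0 : μ ω = 0
  · rw [h0, zero_mul]
  · have e1 : cm μ (c l) ω (fun ω' => g ω' * (sw μ c R l ω' - ew μ c R l ω')) =
        cm μ (c l) ω (fun ω' => g ω * (sw μ c R l ω' - ew μ c R l ω)) := by
      apply cm_ext μ hμ
      intro ω' a b
      rw [hg ω' ω a h0 b, ew_congr μ c R l b]
    have e2 : cm μ (c l) ω (fun ω' => sw μ c R l ω' - ew μ c R l ω) = 0 := by
      rw [cm_sub, cm_const μ hμ (c l) ω h0]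
      exact sub_self _
    rw [e1, cm_mul, e2, mul_zero, mul_zero]

/-- number of subcells -/
def Nb (μ : Ω → ℝ) (c : ℕ → Ω → α) (N : ℝ) (R : ℕ) : Prop :=
  ∀ l ω, μ ω ≠ 0 → ∑ ω' ∈ (univ : Finset Ω).filter (fun ω' => μ ω' ≠ 0), cw μ (c l) ω ω' * 2 ^ sw μ c R l ω' ≤ N

/-- the subcell-count hypothesis from the number of subcells -/
theorem Nb_card (μ : Ω → ℝ) (hμ : ∀ ω, 0 ≤ μ ω) (c : ℕ → Ω → α) (hc : Ref μ c) (N : ℝ) (R : ℕ)
    (h : ∀ l ω, μ ω ≠ 0 → ∃ S : Finset α, (S.card : ℝ) ≤ N ∧ ∀ ω', μ ω' ≠ 0 → c l ω' = c l ω → c (l + R) ω' ∈ S) :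
    Nb μ c N R := by
  classical
  intro l ω hω
  obtain ⟨S, h1, h2⟩ := h l ω hω
  refine le_trans ?_ h1
  have hp := e1_pr_pos μ (c l) hμ ω hω
  have h3 := sum_div_pr_le (fun ω' => if c l ω' = c l ω then μ ω' else 0)
    (fun ω' => by split_ifs; exact hμ ω'; exact le_rfl) (c (l + R)) S (fun _ => 1) (fun _ => zero_le_one)
    (fun ω' h4 => by
      split_ifs at h4 with h5
      · exact h2 ω' h4 h5
      · exact absurd rfl h4)
  rw [sum_const, nsmul_eq_mul, mul_one] at h3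
  refine le_trans ?_ h3
  rw [sum_filter]
  apply sum_le_sum
  intro ω' _
  by_cases h0 : μ ω' = 0
  · rw [if_neg (not_not.mpr h0), h0]
    simp
  rw [if_pos h0]
  by_cases h5 : c l ω' = c l ω
  · rw [if_pos h5]
    have e1 : pr (fun ω' => if c l ω' = c l ω then μ ω' else 0) (c (l + R)) ω' = pr μ (c (l + R)) ω' := by
      unfold pr
      apply sum_congr rfl
      intro ω'' _
      by_cases h6 : c (l + R) ω'' = c (l + R) ω'
      · rw [if_pos h6, if_pos h6]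
        dsimp only
        by_cases h7 : μ ω'' = 0
        · rw [h7, ite_self]
        · rw [if_pos ((hc.le (Nat.le_add_right l R) h7 h0 h6).trans h5)]
      · rw [if_neg h6, if_neg h6]
    rw [e1]
    have hp' := e1_pr_pos μ (c (l + R)) hμ ω' h0
    have hp2 := e1_pr_pos μ (c l) hμ ω' h0
    unfold cw sw Su
    rw [if_pos h5, neg_sub_neg, ← Real.logb_div hp2.ne' hp'.ne', Real.rpow_logb (by norm_num) (by norm_num)
      (div_pos hp2 hp'), e1_pr_atom μ (c l) ω' ω h5]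
    field_simp
    exact le_rfl
  · rw [if_neg h5]
    unfold cw
    rw [if_neg h5]
    simp

theorem sq_le_exp {x : ℝ} (h : 0 ≤ x) : x ^ 2 ≤ 5 * 2 ^ x := by
  have h1 : (2 : ℝ) ^ x = Real.exp (x * Real.log 2) := by
    rw [Real.rpow_def_of_pos (by norm_num), mul_comm]
  have h2 := Real.log_two_gt_d9
  have h3 : 0 ≤ x * Real.log 2 := mul_nonneg h (by linarith)
  have h4 := Real.quadratic_le_exp_of_nonneg h3
  rw [h1]
  have h5 : (0.69 * x) ^ 2 ≤ (x * Real.log 2) ^ 2 := by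
    apply pow_le_pow_left₀ (by positivity)
    nlinarith
  nlinarith

/-- second moment of the surprisal -/
theorem second (μ : Ω → ℝ) (hμ : ∀ ω, 0 ≤ μ ω) (hm : ∑ ω, μ ω = 1) (c : ℕ → Ω → α) (hc : Ref μ c) (N : ℝ) (R l : ℕ)
    (hN : Nb μ c N R) : ∑ ω, μ ω * sw μ c R l ω ^ 2 ≤ 5 * N := by
  classical
  rw [← sum_cm μ hμ (c l)]
  calc _ ≤ ∑ ω, μ ω * (5 * N) := by
        apply sum_le_sum
        intro ω _
        by_cases h0 : μ ω = 0
        · rw [h0, zero_mul, zero_mul]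
        · apply mul_le_mul_of_nonneg_left _ (hμ ω)
          refine le_trans ?_ (mul_le_mul_of_nonneg_left (hN l ω h0) (by norm_num : (0 : ℝ) ≤ 5))
          unfold cm
          rw [mul_sum]
          have e : ∑ ω', cw μ (c l) ω ω' * sw μ c R l ω' ^ 2 =
              ∑ ω' ∈ (univ : Finset Ω).filter (fun ω' => μ ω' ≠ 0), cw μ (c l) ω ω' * sw μ c R l ω' ^ 2 := by
            rw [sum_filter]
            apply sum_congr rfl
            intro ω' _
            by_cases h1 : μ ω' = 0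
            · rw [if_neg (not_not.mpr h1)]
              unfold cw
              rw [h1]
              simp
            · rw [if_pos h1]
          rw [e]
          apply sum_le_sum
          intro ω' hω'
          rw [mem_filter] at hω'
          have h2 := sq_le_exp (sw_nonneg μ hμ c hc R l ω' hω'.2)
          have h3 := mul_le_mul_of_nonneg_left h2 (cw_nonneg μ (c l) hμ ω ω')
          linarith
    _ = 5 * N := by rw [← sum_mul, hm, one_mul]

/-- the centered window -/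
noncomputable def dw (μ : Ω → ℝ) (c : ℕ → Ω → α) (R l : ℕ) (ω : Ω) : ℝ := sw μ c R l ω - ew μ c R l ω

theorem dw_second (μ : Ω → ℝ) (hμ : ∀ ω, 0 ≤ μ ω) (hm : ∑ ω, μ ω = 1) (c : ℕ → Ω → α) (hc : Ref μ c) (N : ℝ)
    (R l : ℕ) (hN : Nb μ c N R) : ∑ ω, μ ω * dw μ c R l ω ^ 2 ≤ 5 * N := by
  have h1 := second μ hμ hm c hc N R l hN
  have h2 := orth μ hμ c R l (ew μ c R l) (fun ω ω' _ _ h => ew_congr μ c R l h)
  have h3 : ∀ ω, μ ω * sw μ c R l ω ^ 2 = μ ω * dw μ c R l ω ^ 2 +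
      2 * (μ ω * (ew μ c R l ω * (sw μ c R l ω - ew μ c R l ω))) + μ ω * ew μ c R l ω ^ 2 := by
    intro ω; unfold dw; ring
  rw [sum_congr rfl (fun ω _ => h3 ω), sum_add_distrib, sum_add_distrib, ← mul_sum, h2] at h1
  have h4 : 0 ≤ ∑ ω, μ ω * ew μ c R l ω ^ 2 := sum_nonneg (fun ω _ => mul_nonneg (hμ ω) (sq_nonneg _))
  linarith

theorem dw_orth (μ : Ω → ℝ) (hμ : ∀ ω, 0 ≤ μ ω) (c : ℕ → Ω → α) (hc : Ref μ c) (R l l' : ℕ) (h : l + R ≤ l') :
    ∑ ω, μ ω * (dw μ c R l ω * dw μ c R l' ω) = 0 := by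
  apply orth μ hμ c R l' (dw μ c R l)
  intro ω ω' h1 h2 h3
  have e1 := hc.le h h1 h2 h3
  have e2 := hc.le (show l ≤ l' by omega) h1 h2 h3
  unfold dw sw
  rw [Su_congr μ _ e1, Su_congr μ _ e2, ew_congr μ c R l e2]

/-- variance of sums of windows -/
theorem var_sumS (μ : Ω → ℝ) (hμ : ∀ ω, 0 ≤ μ ω) (hm : ∑ ω, μ ω = 1) (c : ℕ → Ω → α) (hc : Ref μ c) (N : ℝ)
    (hN0 : 0 ≤ N) (R : ℕ) (hN : Nb μ c N R) (S : Finset ℕ) :
    ∑ ω, μ ω * (∑ l ∈ S, dw μ c R l ω) ^ 2 ≤ (S.card : ℝ) * (2 * R * (5 * N)) := by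
  classical
  have h1 : ∀ ω, μ ω * (∑ l ∈ S, dw μ c R l ω) ^ 2 =
      ∑ l ∈ S, ∑ l' ∈ S, μ ω * (dw μ c R l ω * dw μ c R l' ω) := by
    intro ω
    rw [sq, sum_mul_sum, mul_sum]
    apply sum_congr rfl
    intro l _
    rw [mul_sum]
  rw [sum_congr rfl (fun ω _ => h1 ω), sum_comm]
  have h2 : ∀ l ∈ S, ∑ ω, ∑ l' ∈ S, μ ω * (dw μ c R l ω * dw μ c R l' ω) ≤ 2 * R * (5 * N) := by
    intro l _
    rw [sum_comm]
    calc _ ≤ ∑ l' ∈ S, (if l < l' + R ∧ l' < l + R then 5 * N else 0) := by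
          apply sum_le_sum
          intro l' _
          split_ifs with h
          · have e1 := dw_second μ hμ hm c hc N R l hN
            have e2 := dw_second μ hμ hm c hc N R l' hN
            have e3 : ∑ ω, μ ω * (dw μ c R l ω * dw μ c R l' ω) ≤
                ∑ ω, (1 / 2 * (μ ω * dw μ c R l ω ^ 2) + 1 / 2 * (μ ω * dw μ c R l' ω ^ 2)) := by
              apply sum_le_sum
              intro ω _
              have := mul_nonneg (hμ ω) (sq_nonneg (dw μ c R l ω - dw μ c R l' ω))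
              nlinarith
            rw [sum_add_distrib, ← mul_sum, ← mul_sum] at e3
            linarith
          · apply le_of_eq
            by_cases h3 : l + R ≤ l'
            · exact dw_orth μ hμ c hc R l l' h3
            · have h4 : l' + R ≤ l := by
                by_contra h5
                apply h
                constructor <;> omega
              rw [← dw_orth μ hμ c hc R l' l h4]
              apply sum_congr rfl
              intro ω _; ring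
      _ = ((S.filter (fun l' => l < l' + R ∧ l' < l + R)).card : ℝ) * (5 * N) := by
          rw [← sum_filter, sum_const, nsmul_eq_mul]
      _ ≤ 2 * R * (5 * N) := by
          apply mul_le_mul_of_nonneg_right _ (by positivity)
          have h3 : (S.filter (fun l' => l < l' + R ∧ l' < l + R)).card ≤ 2 * R := by
            calc _ ≤ (Ico (l + 1 - R) (l + R)).card := by
                  apply card_le_card
                  intro l' hl'
                  rw [mem_filter] at hl'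
                  rw [mem_Ico]
                  omega
              _ ≤ 2 * R := by rw [Nat.card_Ico]; omega
          exact_mod_cast h3
  have h3 := sum_le_sum h2
  rw [sum_const, nsmul_eq_mul] at h3
  exact h3

theorem var_sum (μ : Ω → ℝ) (hμ : ∀ ω, 0 ≤ μ ω) (hm : ∑ ω, μ ω = 1) (c : ℕ → Ω → α) (hc : Ref μ c) (N : ℝ)
    (hN0 : 0 ≤ N) (R : ℕ) (hN : Nb μ c N R) (a b : ℕ) :
    ∑ ω, μ ω * (∑ l ∈ Ico a b, dw μ c R l ω) ^ 2 ≤ ((b - a : ℕ) : ℝ) * (2 * R * (5 * N)) := by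
  have h := var_sumS μ hμ hm c hc N hN0 R hN (Ico a b)
  rw [Nat.card_Ico] at h
  exact h

/-- Chebyshev -/
theorem cheb (μ : Ω → ℝ) (hμ : ∀ ω, 0 ≤ μ ω) (hm : ∑ ω, μ ω = 1) (c : ℕ → Ω → α) (hc : Ref μ c) (N : ℝ)
    (hN0 : 0 ≤ N) (R : ℕ) (hN : Nb μ c N R) (a b : ℕ) (t : ℝ) (ht : 0 < t) :
    Pw μ (fun ω => t < |∑ l ∈ Ico a b, dw μ c R l ω|) ≤ ((b - a : ℕ) : ℝ) * (2 * R * (5 * N)) / t ^ 2 := by
  have h1 := Pw_markov μ hμ (fun ω => (∑ l ∈ Ico a b, dw μ c R l ω) ^ 2) (fun ω _ => sq_nonneg _)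
    (show 0 < t ^ 2 by positivity) (var_sum μ hμ hm c hc N hN0 R hN a b)
  refine le_trans (Pw_mono μ hμ ?_) h1
  intro ω _ h
  rw [← sq_abs (∑ l ∈ Ico a b, dw μ c R l ω)]
  exact pow_lt_pow_left₀ h ht.le (by norm_num)

/-- union bound -/
theorem Pw_union {ι : Type*} (μ : Ω → ℝ) (hμ : ∀ ω, 0 ≤ μ ω) (S : Finset ι) (A : ι → Ω → Prop) :
    Pw μ (fun ω => ∃ i ∈ S, A i ω) ≤ ∑ i ∈ S, Pw μ (A i) := by
  classical
  induction S using Finset.induction_on with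
  | empty =>
    unfold Pw
    simp
  | insert i S hi ih =>
    rw [sum_insert hi]
    refine le_trans (Pw_mono μ hμ ?_) ((Pw_or μ hμ (A i) (fun ω => ∃ i ∈ S, A i ω)).trans (by linarith))
    intro ω _ h
    obtain ⟨j, hj, hA⟩ := h
    rcases mem_insert.mp hj with rfl | hj
    · exact Or.inl hA
    · exact Or.inr ⟨j, hj, hA⟩

/-- sums of local entropies follow the surprisals at grid points, hence everywhere -/
theorem grid_det (s e : ℕ → ℝ) (hs : ∀ l, 0 ≤ s l) (he : ∀ l, 0 ≤ e l) (Λ : ℝ) (heΛ : ∀ l, e l ≤ Λ) (q : ℕ) (hq : 1 ≤ q)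
    (t : ℝ) (n : ℕ)
    (h : ∀ i j, i ≤ j → j ≤ n / q + 1 → |∑ l ∈ Ico (i * q) (j * q), (s l - e l)| ≤ t) (a b : ℕ) (hab : a ≤ b)
    (hb : b ≤ n) : |∑ l ∈ Ico a b, (s l - e l)| ≤ t + 2 * q * Λ := by
  have hΛ : 0 ≤ Λ := (he 0).trans (heΛ 0)
  have ht : 0 ≤ t := (abs_nonneg _).trans (h 0 0 le_rfl (Nat.zero_le _))
  have he1 : ∀ x y : ℕ, x ≤ y → y ≤ x + q → ∑ l ∈ Ico x y, e l ≤ q * Λ := by
    intro x y _ hy
    calc _ ≤ ∑ l ∈ Ico x y, Λ := sum_le_sum (fun l _ => heΛ l)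
      _ = ((y - x : ℕ) : ℝ) * Λ := by rw [sum_const, Nat.card_Ico, nsmul_eq_mul]
      _ ≤ q * Λ := by
        apply mul_le_mul_of_nonneg_right _ hΛ
        have : y - x ≤ q := by omega
        exact_mod_cast this
  have hs1 : ∀ x y : ℕ, 0 ≤ ∑ l ∈ Ico x y, s l := fun x y => sum_nonneg (fun l _ => hs l)
  have he0 : ∀ x y : ℕ, 0 ≤ ∑ l ∈ Ico x y, e l := fun x y => sum_nonneg (fun l _ => he l)
  -- the outer grid interval
  have a1 := Nat.div_mul_le_self a q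
  have a2 := Nat.lt_div_mul_add hq (a := a)
  have b1 := Nat.div_mul_le_self b q
  have b2 := Nat.lt_div_mul_add hq (a := b)
  have hdiv : a / q ≤ b / q := Nat.div_le_div_right hab
  have hdiv' : b / q ≤ n / q := Nat.div_le_div_right hb
  have hout := h (a / q) (b / q + 1) (by omega) (by omega)
  have e1 : (b / q + 1) * q = b / q * q + q := by ring
  rw [e1] at hout
  have sp : ∀ (f : ℕ → ℝ) (x y z : ℕ), x ≤ y → y ≤ z → ∑ l ∈ Ico x z, f l = ∑ l ∈ Ico x y, f l + ∑ l ∈ Ico y z, f l :=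
    fun f x y z h1 h2 => (Finset.sum_Ico_consecutive f h1 h2).symm
  rw [abs_le]
  constructor
  · -- lower bound: inner grid interval
    rcases Nat.lt_or_ge (a / q) (b / q) with h3 | h3
    · have hin := h (a / q + 1) (b / q) (by omega) (by omega)
      have e2 : (a / q + 1) * q = a / q * q + q := by ring
      rw [e2] at hin
      have hin1 := (abs_le.mp hin).1
      have e3 : a / q * q + q ≤ b / q * q := by
        rw [← e2]
        exact Nat.mul_le_mul_right q (by omega)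
      rw [sum_sub_distrib] at hin1 ⊢
      have f1 := sp s a (a / q * q + q) b (by omega) (by omega)
      have f2 := sp s (a / q * q + q) (b / q * q) b (by omega) (by omega)
      have g1 := sp e a (a / q * q + q) b (by omega) (by omega)
      have g2 := sp e (a / q * q + q) (b / q * q) b (by omega) (by omega)
      have k1 := he1 a (a / q * q + q) (by omega) (by omega)
      have k2 := he1 (b / q * q) b (by omega) (by omega)
      have k3 := hs1 a (a / q * q + q)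
      have k4 := hs1 (b / q * q) b
      linarith
    · have h4 : b ≤ a + q := by
        have : b / q * q ≤ a / q * q := Nat.mul_le_mul_right q h3
        omega
      have k1 := he1 a b hab h4
      have k3 := hs1 a b
      rw [sum_sub_distrib]
      have : 0 ≤ (q : ℝ) * Λ := by positivity
      linarith
  · have hout1 := (abs_le.mp hout).2
    rw [sum_sub_distrib] at hout1 ⊢
    have f1 := sp s (a / q * q) a (b / q * q + q) (by omega) (by omega)
    have f2 := sp s a b (b / q * q + q) hab (by omega)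
    have g1 := sp e (a / q * q) a (b / q * q + q) (by omega) (by omega)
    have g2 := sp e a b (b / q * q + q) hab (by omega)
    have k1 := he1 (a / q * q) a (by omega) (by omega)
    have k2 := he1 b (b / q * q + q) (by omega) (by omega)
    have k3 := hs1 (a / q * q) a
    have k4 := hs1 b (b / q * q + q)
    linarith

end Pool.Agent.Helper97.WF
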