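import Pool.Agent.Helper97.WF.Num

/-! Lemma W, part II: numeric core (2.3)-(2.6), good antidiagonals (2.3), directions (2.8). -/

namespace Pool.Agent.Helper97.WF

open Finset

/-- deficits along an antidiagonal -/
theorem antidiag (T : ℕ) (R θ : ℝ) (hR : 0 ≤ R) (E E' : ℕ → ℝ) (hθ : 0 ≤ θ) (h1 : 1 ≤ θ * T)
    (hE0 : ∀ l, 0 ≤ E l) (hE2 : ∀ l, E l ≤ 2 * R) (hE0' : ∀ l, 0 ≤ E' l) (hE2' : ∀ l, E' l ≤ 2 * R)
    (hS : ∀ N, N ≤ 8 * T → R * N - θ * R * T ≤ ∑ l ∈ range N, E l)
    (hS' : ∀ N, N ≤ 8 * T → R * N - θ * R * T ≤ ∑ l ∈ range N, E' l)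
    (N : ℕ) (hN : N ≤ 8 * T)
    (hcard : (((range (N + 1)).filter (fun l => 2 * R + θ * R < E l + E' (N - l))).card : ℝ) ≤ θ * T) :
    ∑ l ∈ range (N + 1), |E l - (2 * R - E' (N - l))| ≤ 26 * θ * R * T := by
  have hT : 1 ≤ T := by
    rcases Nat.eq_zero_or_pos T with h | h
    · subst h; rw [Nat.cast_zero, mul_zero] at h1; linarith
    · exact h
  have hT' : (1 : ℝ) ≤ T := by exact_mod_cast hT
  have hN' : (N : ℝ) ≤ 8 * T := by exact_mod_cast hN
  have hRT : R ≤ θ * R * T := by nlinarith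
  have h2 : ∀ l ∈ range (N + 1), |E l - (2 * R - E' (N - l))| ≤
      -(E l + E' (N - l) - 2 * R) + 2 * θ * R + (if 2 * R + θ * R < E l + E' (N - l) then 4 * R else 0) := by
    intro l _
    have a1 := hE0 l
    have a2 := hE2 l
    have a3 := hE0' (N - l)
    have a4 := hE2' (N - l)
    have a5 : 0 ≤ θ * R := by positivity
    split_ifs with h
    · rw [abs_le]; constructor <;> nlinarith
    · rw [abs_le]; constructor <;> nlinarith
  have h3 := sum_le_sum h2
  rw [sum_add_distrib, sum_add_distrib, ← sum_filter, sum_const, sum_const, card_range, nsmul_eq_mul,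
    nsmul_eq_mul] at h3
  have h4 : ∑ l ∈ range (N + 1), -(E l + E' (N - l) - 2 * R) =
      2 * R * (N + 1) - ∑ l ∈ range (N + 1), E l - ∑ l ∈ range (N + 1), E' l := by
    have e := Finset.sum_range_reflect E' (N + 1)
    have e2 : ∑ l ∈ range (N + 1), E' (N - l) = ∑ l ∈ range (N + 1), E' l := by
      rw [← e]
      apply sum_congr rfl
      intro l _
      have : N + 1 - 1 - l = N - l := by omega
      rw [this]
    rw [← e2]
    have e3 : ∀ l ∈ range (N + 1), -(E l + E' (N - l) - 2 * R) = 2 * R - E l - E' (N - l) := by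
      intro l _; ring
    rw [sum_congr rfl e3, sum_sub_distrib, sum_sub_distrib, sum_const, card_range, nsmul_eq_mul]
    push_cast; ring
  rw [h4] at h3
  have h5 := hS N hN
  have h6 := hS' N hN
  have h7 : ∑ l ∈ range N, E l ≤ ∑ l ∈ range (N + 1), E l := by
    rw [sum_range_succ]; linarith [hE0 N]
  have h8 : ∑ l ∈ range N, E' l ≤ ∑ l ∈ range (N + 1), E' l := by
    rw [sum_range_succ]; linarith [hE0' N]
  push_cast at h3
  have h9 : (((range (N + 1)).filter (fun l => 2 * R + θ * R < E l + E' (N - l))).card : ℝ) * (4 * R) ≤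
      θ * T * (4 * R) := mul_le_mul_of_nonneg_right hcard (by linarith)
  have h10 : ((N : ℝ) + 1) * (2 * θ * R) ≤ 9 * T * (2 * θ * R) :=
    mul_le_mul_of_nonneg_right (by linarith) (by positivity)
  nlinarith

/-- a set which meets an interval in at least `c` times its length meets it -/
theorem dense_ne (c : ℝ) (hc : 0 < c) (B : Finset ℕ) (a b : ℕ) (hab : a < b)
    (h : c * ((b : ℝ) - a) ≤ ((B.filter (fun N => a ≤ N ∧ N < b)).card : ℝ)) : ∃ N ∈ B, a ≤ N ∧ N < b := by
  have h1 : (0 : ℝ) < (b : ℝ) - a := by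
    have : (a : ℝ) < b := by exact_mod_cast hab
    linarith
  have h2 : (0 : ℝ) < ((B.filter (fun N => a ≤ N ∧ N < b)).card : ℝ) := lt_of_lt_of_le (by positivity) h
  have h3 : 0 < (B.filter (fun N => a ≤ N ∧ N < b)).card := by exact_mod_cast h2
  obtain ⟨N, hN⟩ := card_pos.mp h3
  rw [mem_filter] at hN
  exact ⟨N, hN.1, hN.2⟩

/-- an element of `B` just below `5 T` -/
theorem dense_top (c θ : ℝ) (hc : 0 < c) (hθ2 : θ ≤ 1 / 2) (T : ℕ) (h1 : 1 ≤ θ * T) (B : Finset ℕ)
    (hB : ∀ a b : ℕ, 2 * T ≤ a → a ≤ b → b ≤ 5 * T → θ * T ≤ (b : ℝ) - a →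
      c * ((b : ℝ) - a) ≤ ((B.filter (fun N => a ≤ N ∧ N < b)).card : ℝ)) :
    ∃ N ∈ B, 4 * T ≤ N ∧ N < 5 * T ∧ ((5 * T : ℕ) : ℝ) ≤ (N + 1 : ℕ) + 2 * θ * T := by
  have h2 : (⌈θ * T⌉₊ : ℝ) < θ * T + 1 := Nat.ceil_lt_add_one (by linarith)
  have h3 := Nat.le_ceil (θ * T)
  have h4 : (⌈θ * T⌉₊ : ℝ) ≤ T := by nlinarith
  have h5 : ⌈θ * T⌉₊ ≤ T := by exact_mod_cast h4
  have h6 : 1 ≤ ⌈θ * T⌉₊ := by
    have : (0 : ℝ) < θ * T := by linarith
    exact Nat.ceil_pos.mpr this
  have h7 : ((5 * T - ⌈θ * T⌉₊ : ℕ) : ℝ) = ((5 * T : ℕ) : ℝ) - ⌈θ * T⌉₊ := by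
    rw [Nat.cast_sub (by omega)]
  obtain ⟨N, hN, a, b⟩ := dense_ne c hc B (5 * T - ⌈θ * T⌉₊) (5 * T) (by omega)
    (hB _ _ (by omega) (by omega) le_rfl (by rw [h7]; linarith))
  refine ⟨N, hN, by omega, b, ?_⟩
  have h8 : 5 * T ≤ N + ⌈θ * T⌉₊ := by omega
  have h9 : ((5 * T : ℕ) : ℝ) ≤ (N : ℝ) + ⌈θ * T⌉₊ := by exact_mod_cast h8
  push_cast at h9 ⊢
  linarith

/-- adding the top levels -/
theorem sum_top (T N : ℕ) (hN : N < 5 * T) (g : ℕ → ℝ) (A K θ : ℝ) (hK : 0 ≤ K) (hg : ∀ l, g l ≤ K)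
    (h : ∑ l ∈ range (N + 1), g l ≤ A) (ht : ((5 * T : ℕ) : ℝ) ≤ (N + 1 : ℕ) + 2 * θ * T) :
    ∑ l ∈ range (5 * T), g l ≤ A + 2 * θ * T * K := by
  rw [← Finset.sum_range_add_sum_Ico _ (show N + 1 ≤ 5 * T by omega)]
  have h1 : ∑ l ∈ Ico (N + 1) (5 * T), g l ≤ ∑ l ∈ Ico (N + 1) (5 * T), K := sum_le_sum (fun l _ => hg l)
  rw [sum_const, Nat.card_Ico, nsmul_eq_mul, Nat.cast_sub (by omega)] at h1
  have h2 : (((5 * T : ℕ) : ℝ) - (N + 1 : ℕ)) * K ≤ 2 * θ * T * K :=
    mul_le_mul_of_nonneg_right (by linarith) hK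
  linarith

/-- NUMERIC CORE: (2.3)-(2.6) of Lemma W, with exceptional levels in the slow variation -/
theorem num_core' (c : ℝ) (hc : 0 < c) (T : ℕ) (R θ : ℝ) (hR : 0 ≤ R) (hθ2 : θ ≤ 1 / 2) (h1 : 1 ≤ θ * T)
    (E E' : ℕ → ℝ) (B : Finset ℕ)
    (hE0 : ∀ l, 0 ≤ E l) (hE2 : ∀ l, E l ≤ 2 * R) (hE0' : ∀ l, 0 ≤ E' l) (hE2' : ∀ l, E' l ≤ 2 * R)
    (hL : (((range (4 * T)).filter (fun l => θ * R < |E l - E (l + 1)|)).card : ℝ) ≤ θ * T)
    (hS : ∀ N, N ≤ 8 * T → R * N - θ * R * T ≤ ∑ l ∈ range N, E l)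
    (hS' : ∀ N, N ≤ 8 * T → R * N - θ * R * T ≤ ∑ l ∈ range N, E' l)
    (hG : ∀ N ∈ B, 2 * T ≤ N → N < 5 * T →
      (((range (N + 1)).filter (fun l => 2 * R + θ * R < E l + E' (N - l))).card : ℝ) ≤ θ * T)
    (hB : ∀ a b : ℕ, 2 * T ≤ a → a ≤ b → b ≤ 5 * T → θ * T ≤ (b : ℝ) - a →
      c * ((b : ℝ) - a) ≤ ((B.filter (fun N => a ≤ N ∧ N < b)).card : ℝ)) :
    ∑ l ∈ range (5 * T), |E l - R| ≤ (52 * (264 / c + 3) + 4) * θ * R * T ∧
    ∑ l ∈ range (5 * T), |E' l - R| ≤ (52 * (264 / c + 3) + 4) * θ * R * T := by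
  have hT : 1 ≤ T := by
    rcases Nat.eq_zero_or_pos T with h | h
    · subst h; rw [Nat.cast_zero, mul_zero] at h1; linarith
    · exact h
  have hT' : (1 : ℝ) ≤ T := by exact_mod_cast hT
  have hθ : 0 < θ := by
    by_contra h
    push Not at h
    have : θ * T ≤ 0 := mul_nonpos_of_nonpos_of_nonneg h (by linarith)
    linarith
  have hRT : R ≤ θ * R * T := by nlinarith
  have hβ : 0 ≤ 26 * θ * R * T := by positivity
  have hB4 : c * T ≤ ((B.filter (fun N => 4 * T ≤ N ∧ N < 5 * T)).card : ℝ) := by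
    have := hB (4 * T) (5 * T) (by omega) (by omega) le_rfl (by push_cast; nlinarith)
    refine le_trans (le_of_eq ?_) this
    push_cast; ring
  have hne : ∃ N ∈ B, 2 * T ≤ N ∧ N < 3 * T :=
    dense_ne c hc B (2 * T) (3 * T) (by omega)
      (hB (2 * T) (3 * T) le_rfl (by omega) (by omega) (by push_cast; nlinarith))
  obtain ⟨v, hv⟩ := gl_const (fun x y : ℝ => |x - y|) (fun x y => abs_nonneg _) (fun x => by simp)
    (fun x y => abs_sub_comm x y) (fun x y z => abs_sub_le x y z) E (fun l => 2 * R - E' l) T hT c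
    (26 * θ * R * T) hc hβ B hB4
    (fun N hN a b => antidiag T R θ hR E E' hθ.le h1 hE0 hE2 hE0' hE2' hS hS' N (by omega) (hG N hN a b))
    (by
      have a1 : ∑ l ∈ range (4 * T), |E l - E (l + 1)| ≤
          ∑ l ∈ range (4 * T), (θ * R + (if θ * R < |E l - E (l + 1)| then 2 * R else 0)) := by
        apply sum_le_sum
        intro l _
        have b1 : |E l - E (l + 1)| ≤ 2 * R := by
          rw [abs_le]; constructor <;> linarith [hE0 l, hE2 l, hE0 (l + 1), hE2 (l + 1)]
        have b2 : 0 ≤ θ * R := by positivity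
        split_ifs with h
        · linarith
        · push Not at h
          linarith
      rw [sum_add_distrib, ← sum_filter, sum_const, sum_const, card_range, nsmul_eq_mul, nsmul_eq_mul] at a1
      push_cast at a1
      refine a1.trans ?_
      have a2 : (((range (4 * T)).filter (fun l => θ * R < |E l - E (l + 1)|)).card : ℝ) * (2 * R) ≤
          θ * T * (2 * R) := mul_le_mul_of_nonneg_right hL (by linarith)
      nlinarith) hne
  obtain ⟨N, hN, hN1, hN2, hN3⟩ := dense_top c θ hc hθ2 T h1 B hB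
  obtain ⟨h5, h6⟩ := hv N hN hN1 hN2
  set C := (264 / c + 3) * (26 * θ * R * T) with hCdef
  have hC0 : 0 ≤ C := by positivity
  have hN1' : 4 * (T : ℝ) ≤ N := by exact_mod_cast hN1
  have hS1 := hS N (by omega)
  have hS1' := hS' N (by omega)
  have hS2 : ∑ l ∈ range N, E l ≤ ∑ l ∈ range (N + 1), E l := by rw [sum_range_succ]; linarith [hE0 N]
  have hS2' : ∑ l ∈ range N, E' l ≤ ∑ l ∈ range (N + 1), E' l := by rw [sum_range_succ]; linarith [hE0' N]
  -- the value is `R`
  have h7 : ((N : ℝ) + 1) * |v - R| ≤ C + 2 * (θ * R * T) := by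
    have a1 : ∑ l ∈ range (N + 1), (E l - v) ≤ C := le_trans (sum_le_sum (fun l _ => le_abs_self _)) h5
    have a2 : -C ≤ ∑ l ∈ range (N + 1), (2 * R - E' l - v) := by
      have : ∑ l ∈ range (N + 1), -(|2 * R - E' l - v|) ≤ ∑ l ∈ range (N + 1), (2 * R - E' l - v) :=
        sum_le_sum (fun l _ => neg_abs_le _)
      rw [sum_neg_distrib] at this
      linarith
    rw [sum_sub_distrib, sum_const, card_range, nsmul_eq_mul] at a1
    rw [sum_sub_distrib, sum_sub_distrib, sum_const, sum_const, card_range, nsmul_eq_mul, nsmul_eq_mul] at a2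
    push_cast at a1 a2
    have a3 : ((N : ℝ) + 1) * |v - R| = |((N : ℝ) + 1) * (v - R)| := by
      rw [abs_mul, abs_of_nonneg (by positivity : (0 : ℝ) ≤ (N : ℝ) + 1)]
    rw [a3, abs_le]
    constructor <;> nlinarith
  have h8 : ∑ l ∈ range (N + 1), |E l - R| ≤ 2 * C + 2 * (θ * R * T) := by
    have : ∑ l ∈ range (N + 1), |E l - R| ≤ ∑ l ∈ range (N + 1), (|E l - v| + |v - R|) :=
      sum_le_sum (fun l _ => abs_sub_le _ _ _)
    rw [sum_add_distrib, sum_const, card_range, nsmul_eq_mul] at this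
    push_cast at this
    linarith
  have h9 : ∑ l ∈ range (N + 1), |E' l - R| ≤ 2 * C + 2 * (θ * R * T) := by
    have : ∑ l ∈ range (N + 1), |E' l - R| ≤ ∑ l ∈ range (N + 1), (|2 * R - E' l - v| + |v - R|) := by
      apply sum_le_sum
      intro l _
      have e1 : E' l - R = -(2 * R - E' l - v) - (v - R) := by ring
      rw [e1]
      exact (abs_sub _ _).trans (by rw [abs_neg])
    rw [sum_add_distrib, sum_const, card_range, nsmul_eq_mul] at this
    push_cast at this
    linarith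
  have hC2 : 2 * C = 52 * (264 / c + 3) * (θ * R * T) := by rw [hCdef]; ring
  constructor
  · have := sum_top T N hN2 (fun l => |E l - R|) _ R θ hR
      (fun l => by rw [abs_le]; constructor <;> linarith [hE0 l, hE2 l]) h8 hN3
    refine this.trans (le_of_eq ?_)
    rw [hC2]; ring
  · have := sum_top T N hN2 (fun l => |E' l - R|) _ R θ hR
      (fun l => by rw [abs_le]; constructor <;> linarith [hE0' l, hE2' l]) h9 hN3
    refine this.trans (le_of_eq ?_)
    rw [hC2]; ring

/-- NUMERIC CORE: (2.3)-(2.6) of Lemma W -/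
theorem num_core (c : ℝ) (hc : 0 < c) (T : ℕ) (R θ : ℝ) (hR : 0 ≤ R) (hθ2 : θ ≤ 1 / 2) (h1 : 1 ≤ θ * T)
    (h4 : 4 ≤ θ * R) (E E' : ℕ → ℝ) (B : Finset ℕ)
    (hE0 : ∀ l, 0 ≤ E l) (hE2 : ∀ l, E l ≤ 2 * R) (hE0' : ∀ l, 0 ≤ E' l) (hE2' : ∀ l, E' l ≤ 2 * R)
    (hL : ∀ l, l < 4 * T → |E l - E (l + 1)| ≤ 4)
    (hS : ∀ N, N ≤ 8 * T → R * N - θ * R * T ≤ ∑ l ∈ range N, E l)
    (hS' : ∀ N, N ≤ 8 * T → R * N - θ * R * T ≤ ∑ l ∈ range N, E' l)
    (hG : ∀ N ∈ B, 2 * T ≤ N → N < 5 * T →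
      (((range (N + 1)).filter (fun l => 2 * R + θ * R < E l + E' (N - l))).card : ℝ) ≤ θ * T)
    (hB : ∀ a b : ℕ, 2 * T ≤ a → a ≤ b → b ≤ 5 * T → θ * T ≤ (b : ℝ) - a →
      c * ((b : ℝ) - a) ≤ ((B.filter (fun N => a ≤ N ∧ N < b)).card : ℝ)) :
    ∑ l ∈ range (5 * T), |E l - R| ≤ (52 * (264 / c + 3) + 4) * θ * R * T ∧
    ∑ l ∈ range (5 * T), |E' l - R| ≤ (52 * (264 / c + 3) + 4) * θ * R * T := by
  refine num_core' c hc T R θ hR hθ2 h1 E E' B hE0 hE2 hE0' hE2' ?_ hS hS' hG hB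
  have e : (range (4 * T)).filter (fun l => θ * R < |E l - E (l + 1)|) = ∅ := by
    rw [filter_eq_empty_iff]
    intro l hl
    rw [mem_range] at hl
    have := hL l hl
    push Not
    linarith
  rw [e, card_empty, Nat.cast_zero]
  linarith

/-- Markov inequality for sums over a range -/
theorem card_le_of_sum (n : ℕ) (g : ℕ → ℝ) (hg : ∀ l, 0 ≤ g l) (A ε : ℝ) (hε : 0 < ε)
    (h : ∑ l ∈ range n, g l ≤ A) : (((range n).filter (fun l => ε < g l)).card : ℝ) ≤ A / ε := by
  rw [le_div_iff₀ hε]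
  refine le_trans ?_ h
  calc (((range n).filter (fun l => ε < g l)).card : ℝ) * ε = ∑ l ∈ (range n).filter (fun l => ε < g l), ε := by
        rw [sum_const, nsmul_eq_mul]
    _ ≤ ∑ l ∈ (range n).filter (fun l => ε < g l), g l :=
        sum_le_sum (fun l hl => (mem_filter.mp hl).2.le)
    _ ≤ ∑ l ∈ range n, g l := sum_le_sum_of_subset_of_nonneg (filter_subset _ _) (fun l _ _ => hg l)

open Classical in
/-- GOOD ANTIDIAGONALS are dense: `P l j` is the bad event of the pair `(l, j)` -/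
theorem dense_good (c θ e : ℝ) (hθ : 0 < θ) (T : ℕ) (hT : 1 ≤ T) (he : 18 * e ≤ c * θ ^ 2) (he0 : 0 ≤ e)
    (B₁ : Finset ℕ) (P : ℕ → ℕ → Prop)
    (hB : ∀ a b : ℕ, 2 * T ≤ a → a ≤ b → b ≤ 5 * T → θ * T ≤ (b : ℝ) - a →
      c * ((b : ℝ) - a) ≤ ((B₁.filter (fun N => a ≤ N ∧ N < b)).card : ℝ))
    (hP : ∀ j, j ≤ 5 * T → (((range (5 * T + 1)).filter
      (fun l => l + j ≤ 5 * T ∧ l + j ∈ B₁ ∧ P l j)).card : ℝ) ≤ e * T) :
    ∀ a b : ℕ, 2 * T ≤ a → a ≤ b → b ≤ 5 * T → θ * T ≤ (b : ℝ) - a →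
      c / 2 * ((b : ℝ) - a) ≤ (((B₁.filter (fun N => (((range (N + 1)).filter
        (fun l => P l (N - l))).card : ℝ) ≤ θ * T)).filter (fun N => a ≤ N ∧ N < b)).card : ℝ) := by
  intro a b ha hab hb hθab
  have hT' : (1 : ℝ) ≤ T := by exact_mod_cast hT
  have hθT : 0 < θ * T := by positivity
  set bad := B₁.filter (fun N => N ≤ 5 * T ∧ θ * T < (((range (N + 1)).filter (fun l => P l (N - l))).card : ℝ))
    with hbad
  have h1 : (bad.card : ℝ) ≤ 9 * e * T / θ := by
    set Q := ((B₁.filter (fun N => N ≤ 5 * T)) ×ˢ range (5 * T + 1)).filter (fun p => p.2 ≤ p.1 ∧ P p.2 (p.1 - p.2))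
      with hQ
    have a1 : (Q.card : ℝ) ≤ (5 * T + 1) * (e * T) := by
      have b1 : ∀ p ∈ Q, p.1 - p.2 ∈ range (5 * T + 1) := by
        intro p hp
        rw [hQ, mem_filter, mem_product, mem_filter] at hp
        rw [mem_range]
        omega
      rw [card_eq_sum_card_fiberwise b1]
      push_cast
      calc _ ≤ ∑ j ∈ range (5 * T + 1), e * T := by
            apply sum_le_sum
            intro j hj
            rw [mem_range] at hj
            refine le_trans ?_ (hP j (by omega))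
            norm_cast
            apply card_le_card_of_injOn (fun p => p.2)
            · intro p hp
              rw [mem_coe, mem_filter, hQ, mem_filter, mem_product, mem_filter] at hp
              obtain ⟨⟨⟨⟨c1, c2⟩, c3⟩, c4, c5⟩, c6⟩ := hp
              rw [mem_range] at c3
              have e1 : p.2 + j = p.1 := by omega
              rw [c6] at c5
              rw [← e1] at c1 c2
              exact mem_coe.mpr (mem_filter.mpr ⟨mem_range.mpr c3, c2, c1, c5⟩)
            · intro p hp q hq hpq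
              rw [mem_coe, mem_filter, hQ, mem_filter, mem_product, mem_filter] at hp hq
              have e1 : p.2 = q.2 := hpq
              exact Prod.ext (by omega) e1
        _ = _ := by
            rw [sum_const, card_range, nsmul_eq_mul]; push_cast; ring
    have a2 : (bad.card : ℝ) * (θ * T) ≤ Q.card := by
      have b1 : ∀ p ∈ Q.filter (fun p => p.1 ∈ bad), p.1 ∈ bad := by
        intro p hp
        exact (mem_filter.mp hp).2
      have b2 : (Q.filter (fun p => p.1 ∈ bad)).card ≤ Q.card := card_filter_le _ _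
      have b3 : (bad.card : ℝ) * (θ * T) ≤ ((Q.filter (fun p => p.1 ∈ bad)).card : ℝ) := by
        rw [card_eq_sum_card_fiberwise b1]
        push_cast
        rw [← nsmul_eq_mul, ← sum_const]
        apply sum_le_sum
        intro N hN
        have hN' := hN
        rw [hbad, mem_filter] at hN'
        refine hN'.2.2.le.trans ?_
        norm_cast
        apply card_le_card_of_injOn (fun l => (N, l))
        · intro l hl
          rw [mem_coe, mem_filter, mem_range] at hl
          refine mem_coe.mpr ?_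
          rw [mem_filter, mem_filter, hQ, mem_filter, mem_product, mem_filter]
          refine ⟨⟨⟨⟨⟨hN'.1, hN'.2.1⟩, mem_range.mpr ?_⟩, ?_, hl.2⟩, hN⟩, rfl⟩
          · show l < 5 * T + 1
            omega
          · show l ≤ N
            omega
        · intro l _ l' _ h
          exact (Prod.ext_iff.mp h).2
      exact b3.trans (by exact_mod_cast b2)
    rw [le_div_iff₀ hθ]
    have a3 : (bad.card : ℝ) * (θ * T) ≤ (5 * T + 1) * (e * T) := a2.trans a1
    have a4 : ((5 : ℝ) * T + 1) * (e * T) ≤ 9 * e * T * T := by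
      have : 0 ≤ e * T := by positivity
      nlinarith
    have a5 : (bad.card : ℝ) * θ * T ≤ 9 * e * T * T := by nlinarith
    exact le_of_mul_le_mul_right a5 (by linarith)
  have h2 := hB a b ha hab hb hθab
  have h3 : B₁.filter (fun N => a ≤ N ∧ N < b) ⊆ ((B₁.filter (fun N => (((range (N + 1)).filter
        (fun l => P l (N - l))).card : ℝ) ≤ θ * T)).filter (fun N => a ≤ N ∧ N < b)) ∪ bad := by
    intro N hN
    rw [mem_filter] at hN
    rw [mem_union, mem_filter, mem_filter, hbad, mem_filter]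
    rcases le_or_gt (((range (N + 1)).filter (fun l => P l (N - l))).card : ℝ) (θ * T) with h | h
    · exact Or.inl ⟨⟨hN.1, h⟩, hN.2⟩
    · exact Or.inr ⟨hN.1, by omega, h⟩
  have h4 := (card_le_card h3).trans (card_union_le _ _)
  have h5 : ((B₁.filter (fun N => a ≤ N ∧ N < b)).card : ℝ) ≤
      (((B₁.filter (fun N => (((range (N + 1)).filter
        (fun l => P l (N - l))).card : ℝ) ≤ θ * T)).filter (fun N => a ≤ N ∧ N < b)).card : ℝ) + bad.card := by
    exact_mod_cast h4
  have h6 : 9 * e * T / θ ≤ c / 2 * (θ * T) := by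
    rw [div_le_iff₀ hθ]
    nlinarith
  have hc0 : 0 ≤ c := by
    by_contra h
    push Not at h
    have : c * θ ^ 2 < 0 := mul_neg_of_neg_of_pos h (by positivity)
    linarith
  have h7 : c / 2 * (θ * T) ≤ c / 2 * ((b : ℝ) - a) := mul_le_mul_of_nonneg_left hθab (by positivity)
  linarith

open Classical in
/-- DIRECTIONS (2.8): `G l j` = the pair of levels `(l, j)` is good, `th l j` its direction -/
theorem dir_core {X : Type*} (d : X → X → ℝ) (hd0 : ∀ x y, 0 ≤ d x y) (hd1 : ∀ x y, d x y ≤ 1) (hdd : ∀ x, d x x = 0)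
    (hds : ∀ x y, d x y = d y x) (hdt : ∀ x y z, d x z ≤ d x y + d y z)
    (c : ℝ) (hc : 0 < c) (T : ℕ) (θ w : ℝ) (hw : 0 ≤ w) (hθ2 : θ ≤ 1 / 2) (h1 : 1 ≤ θ * T)
    (G : ℕ → ℕ → Prop) (th : ℕ → ℕ → X) (B : Finset ℕ)
    (hl : ∀ l j j', G l j → G l j' → d (th l j) (th l j') ≤ w)
    (hj : ∀ l l' j, G l j → G l' j → d (th l j) (th l' j) ≤ w)
    (hs : (((range (4 * T)).filter (fun l => ¬ ∀ j j', G l j → G (l + 1) j' →
      d (th l j) (th (l + 1) j') ≤ w)).card : ℝ) ≤ θ * T)
    (hN : ∀ N ∈ B, 2 * T ≤ N → N < 5 * T → (((range (N + 1)).filter (fun l => ¬ G l (N - l))).card : ℝ) ≤ θ * T)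
    (hB : ∀ a b : ℕ, 2 * T ≤ a → a ≤ b → b ≤ 5 * T → θ * T ≤ (b : ℝ) - a →
      c * ((b : ℝ) - a) ≤ ((B.filter (fun N => a ≤ N ∧ N < b)).card : ℝ))
    (ε : ℝ) (hε : 0 < ε) :
    ∃ x0 : X,
      (((range (5 * T)).filter (fun l => ¬ ((∃ j, G l j) ∧ ∀ j, G l j → d (th l j) x0 ≤ ε + w))).card : ℝ) ≤
        (3 * θ + ((264 / c + 3) * (10 * w + 3 * θ) + 2 * θ) / ε) * T ∧
      (((range (5 * T)).filter (fun j => ¬ ((∃ l, G l j) ∧ ∀ l, G l j → d (th l j) x0 ≤ ε + w))).card : ℝ) ≤
        (3 * θ + ((264 / c + 3) * (10 * w + 3 * θ) + 2 * θ) / ε) * T := by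
  have hT : 1 ≤ T := by
    rcases Nat.eq_zero_or_pos T with h | h
    · subst h; rw [Nat.cast_zero, mul_zero] at h1; linarith
    · exact h
  have hT' : (1 : ℝ) ≤ T := by exact_mod_cast hT
  have hθ : 0 < θ := by
    by_contra h
    push Not at h
    have : θ * T ≤ 0 := mul_nonpos_of_nonpos_of_nonneg h (by linarith)
    linarith
  have hB4 : c * T ≤ ((B.filter (fun N => 4 * T ≤ N ∧ N < 5 * T)).card : ℝ) := by
    have := hB (4 * T) (5 * T) (by omega) (by omega) le_rfl (by push_cast; nlinarith)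
    refine le_trans (le_of_eq ?_) this
    push_cast; ring
  have hne : ∃ N ∈ B, 2 * T ≤ N ∧ N < 3 * T :=
    dense_ne c hc B (2 * T) (3 * T) (by omega)
      (hB (2 * T) (3 * T) le_rfl (by omega) (by omega) (by push_cast; nlinarith))
  obtain ⟨N, hNB, hN1, hN2, hN3⟩ := dense_top c θ hc hθ2 T h1 B hB
  have hNc := hN N hNB (by omega) hN2
  set f : ℕ → X := fun l => if h : ∃ j, G l j then th l h.choose else th 0 0 with hf
  set f' : ℕ → X := fun j => if h : ∃ l, G l j then th h.choose j else th 0 0 with hf'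
  have hfe : ∀ l j, G l j → d (f l) (th l j) ≤ w := by
    intro l j h
    have h' : ∃ j, G l j := ⟨j, h⟩
    have : f l = th l h'.choose := by rw [hf]; beta_reduce; rw [dif_pos h']
    rw [this]
    exact hl l _ _ h'.choose_spec h
  have hfe' : ∀ l j, G l j → d (f' j) (th l j) ≤ w := by
    intro l j h
    have h' : ∃ l, G l j := ⟨l, h⟩
    have : f' j = th h'.choose j := by rw [hf']; beta_reduce; rw [dif_pos h']
    rw [this]
    exact hj _ l j h'.choose_spec h
  -- levels without partner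
  have hno : ∀ n, n ≤ N + 1 → (((range n).filter (fun l => ¬ ∃ j, G l j)).card : ℝ) ≤ θ * T := by
    intro n hn
    refine le_trans ?_ hNc
    norm_cast
    apply card_le_card
    intro l hlm
    rw [mem_filter, mem_range] at hlm ⊢
    exact ⟨by omega, fun h => hlm.2 ⟨_, h⟩⟩
  have hno' : (((range (N + 1)).filter (fun j => ¬ ∃ l, G l j)).card : ℝ) ≤ θ * T := by
    refine le_trans ?_ hNc
    norm_cast
    apply card_le_card_of_injOn (fun j => N - j)
    · intro j hjm
      rw [mem_coe, mem_filter, mem_range] at hjm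
      have e0 : N - j < N + 1 := by omega
      refine mem_coe.mpr (mem_filter.mpr ⟨mem_range.mpr e0, fun h => hjm.2 ?_⟩)
      have e : N - (N - j) = j := by omega
      beta_reduce at h
      rw [e] at h
      exact ⟨_, h⟩
    · intro j hjm j' hjm' h
      rw [mem_coe, mem_filter, mem_range] at hjm hjm'
      have h' : N - j = N - j' := h
      omega
  set β := (10 * w + 3 * θ) * T with hβd
  have hβ : 0 ≤ β := by positivity
  have hA : ∀ N ∈ B, 2 * T ≤ N → N < 5 * T → ∑ l ∈ range (N + 1), d (f l) (f' (N - l)) ≤ β := by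
    intro N hNB a b
    have c1 := hN N hNB a b
    have c2 : ∀ l ∈ range (N + 1), d (f l) (f' (N - l)) ≤ 2 * w + (if ¬ G l (N - l) then 1 else 0) := by
      intro l _
      by_cases h : G l (N - l)
      · rw [if_neg (not_not.mpr h)]
        have := hdt (f l) (th l (N - l)) (f' (N - l))
        have e1 := hfe l (N - l) h
        have e2 := hfe' l (N - l) h
        rw [hds] at e2
        linarith
      · rw [if_pos h]
        linarith [hd1 (f l) (f' (N - l))]
    have c3 := sum_le_sum c2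
    rw [sum_add_distrib, ← sum_filter, sum_const, sum_const, card_range, nsmul_eq_mul, nsmul_eq_mul, mul_one] at c3
    have c4 : ((N + 1 : ℕ) : ℝ) ≤ 5 * T := by
      have : N + 1 ≤ 5 * T := by omega
      exact_mod_cast this
    have c5 : ((N + 1 : ℕ) : ℝ) * (2 * w) ≤ 5 * T * (2 * w) := mul_le_mul_of_nonneg_right c4 (by positivity)
    rw [hβd]
    nlinarith
  have hC : ∑ l ∈ range (4 * T), d (f l) (f (l + 1)) ≤ 2 * β := by
    have c2 : ∀ l ∈ range (4 * T), d (f l) (f (l + 1)) ≤ 3 * w +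
        ((if ¬ (∀ j j', G l j → G (l + 1) j' → d (th l j) (th (l + 1) j') ≤ w) then 1 else 0) +
        ((if ¬ (∃ j, G l j) then 1 else 0) + (if ¬ (∃ j, G (l + 1) j) then 1 else 0))) := by
      intro l _
      by_cases h1 : ∀ j j', G l j → G (l + 1) j' → d (th l j) (th (l + 1) j') ≤ w
      · by_cases h2 : ∃ j, G l j
        · by_cases h3 : ∃ j, G (l + 1) j
          · obtain ⟨j, hj1⟩ := h2
            obtain ⟨j', hj2⟩ := h3
            have e1 := hfe l j hj1
            have e2 := hfe (l + 1) j' hj2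
            have e3 := h1 j j' hj1 hj2
            have e4 := hdt (f l) (th l j) (f (l + 1))
            have e5 := hdt (th l j) (th (l + 1) j') (f (l + 1))
            rw [hds] at e2
            rw [if_neg (not_not.mpr h1), if_neg (not_not.mpr ⟨j, hj1⟩), if_neg (not_not.mpr ⟨j', hj2⟩)]
            linarith
          · rw [if_neg (not_not.mpr h1), if_neg (not_not.mpr h2), if_pos h3]
            linarith [hd1 (f l) (f (l + 1))]
        · rw [if_neg (not_not.mpr h1), if_pos h2]
          have := hd1 (f l) (f (l + 1))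
          split_ifs <;> linarith
      · rw [if_pos h1]
        have := hd1 (f l) (f (l + 1))
        split_ifs <;> linarith
    have c3 := sum_le_sum c2
    rw [sum_add_distrib, sum_add_distrib, sum_add_distrib, ← sum_filter, ← sum_filter, ← sum_filter, sum_const,
      sum_const, sum_const, sum_const, card_range, nsmul_eq_mul, nsmul_eq_mul, nsmul_eq_mul, nsmul_eq_mul, mul_one,
      mul_one, mul_one] at c3
    have c4 := hno (4 * T) (by omega)
    have c5 : (((range (4 * T)).filter (fun l => ¬ ∃ j, G (l + 1) j)).card : ℝ) ≤ θ * T := by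
      refine le_trans ?_ (hno (4 * T + 1) (by omega))
      norm_cast
      apply card_le_card_of_injOn (fun l => l + 1)
      · intro l hlm
        rw [mem_coe, mem_filter, mem_range] at hlm
        have e0 : l + 1 < 4 * T + 1 := by omega
        exact mem_coe.mpr (mem_filter.mpr ⟨mem_range.mpr e0, hlm.2⟩)
      · intro l _ l' _ h
        have h' : l + 1 = l' + 1 := h
        omega
    push_cast at c3
    rw [hβd]
    nlinarith
  obtain ⟨x0, hx⟩ := gl_const d hd0 hdd hds hdt f f' T hT c β hc hβ B hB4 hA hC hne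
  obtain ⟨h5, h6⟩ := hx N hNB hN1 hN2
  refine ⟨x0, ?_, ?_⟩
  · have a1 := sum_top T N hN2 (fun l => d (f l) x0) _ 1 θ zero_le_one (fun l => hd1 _ _) h5 hN3
    have a2 := card_le_of_sum (5 * T) (fun l => d (f l) x0) (fun l => hd0 _ _) _ ε hε a1
    have a3 : ∑ l ∈ range (5 * T), (if ¬ (∃ j, G l j) then (1 : ℝ) else 0) ≤ θ * T + 2 * θ * T * 1 := by
      apply sum_top T N hN2 _ _ 1 θ zero_le_one
      · intro l; split_ifs <;> norm_num
      · rw [← sum_filter, sum_const, nsmul_eq_mul, mul_one]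
        exact hno (N + 1) le_rfl
      · exact hN3
    rw [← sum_filter, sum_const, nsmul_eq_mul, mul_one] at a3
    have a4 : (range (5 * T)).filter (fun l => ¬ ((∃ j, G l j) ∧ ∀ j, G l j → d (th l j) x0 ≤ ε + w)) ⊆
        (range (5 * T)).filter (fun l => ¬ ∃ j, G l j) ∪ (range (5 * T)).filter (fun l => ε < d (f l) x0) := by
      intro l hlm
      rw [mem_filter] at hlm
      rw [mem_union, mem_filter, mem_filter]
      by_cases h7 : ∃ j, G l j
      · right
        refine ⟨hlm.1, ?_⟩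
        by_contra h8
        push Not at h8
        apply hlm.2
        refine ⟨h7, fun j hg => ?_⟩
        have e1 := hfe l j hg
        have e2 := hdt (th l j) (f l) x0
        rw [hds] at e1
        linarith
      · exact Or.inl ⟨hlm.1, h7⟩
    have a5 := (card_le_card a4).trans (card_union_le _ _)
    have a6 : (((range (5 * T)).filter
        (fun l => ¬ ((∃ j, G l j) ∧ ∀ j, G l j → d (th l j) x0 ≤ ε + w))).card : ℝ) ≤
        ((range (5 * T)).filter (fun l => ¬ ∃ j, G l j)).card +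
        ((range (5 * T)).filter (fun l => ε < d (f l) x0)).card := by exact_mod_cast a5
    refine a6.trans ((add_le_add a3 a2).trans (le_of_eq ?_))
    rw [hβd]; field_simp; ring
  · have a1 := sum_top T N hN2 (fun l => d (f' l) x0) _ 1 θ zero_le_one (fun l => hd1 _ _) h6 hN3
    have a2 := card_le_of_sum (5 * T) (fun l => d (f' l) x0) (fun l => hd0 _ _) _ ε hε a1
    have a3 : ∑ l ∈ range (5 * T), (if ¬ (∃ l', G l' l) then (1 : ℝ) else 0) ≤ θ * T + 2 * θ * T * 1 := by
      apply sum_top T N hN2 _ _ 1 θ zero_le_one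
      · intro l; split_ifs <;> norm_num
      · rw [← sum_filter, sum_const, nsmul_eq_mul, mul_one]
        exact hno'
      · exact hN3
    rw [← sum_filter, sum_const, nsmul_eq_mul, mul_one] at a3
    have a4 : (range (5 * T)).filter (fun j => ¬ ((∃ l, G l j) ∧ ∀ l, G l j → d (th l j) x0 ≤ ε + w)) ⊆
        (range (5 * T)).filter (fun j => ¬ ∃ l, G l j) ∪ (range (5 * T)).filter (fun j => ε < d (f' j) x0) := by
      intro j hjm
      rw [mem_filter] at hjm
      rw [mem_union, mem_filter, mem_filter]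
      by_cases h7 : ∃ l, G l j
      · right
        refine ⟨hjm.1, ?_⟩
        by_contra h8
        push Not at h8
        apply hjm.2
        refine ⟨h7, fun l hg => ?_⟩
        have e1 := hfe' l j hg
        have e2 := hdt (th l j) (f' j) x0
        rw [hds] at e1
        linarith
      · exact Or.inl ⟨hjm.1, h7⟩
    have a5 := (card_le_card a4).trans (card_union_le _ _)
    have a6 : (((range (5 * T)).filter
        (fun j => ¬ ((∃ l, G l j) ∧ ∀ l, G l j → d (th l j) x0 ≤ ε + w))).card : ℝ) ≤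
        ((range (5 * T)).filter (fun j => ¬ ∃ l, G l j)).card +
        ((range (5 * T)).filter (fun j => ε < d (f' j) x0)).card := by exact_mod_cast a5
    refine a6.trans ((add_le_add a3 a2).trans (le_of_eq ?_))
    rw [hβd]; field_simp; ring

end Pool.Agent.Helper97.WF
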