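import Pool.Agent.Helper97.WF.Core

/-! Lemma W, deterministic lemmas DL1 and DL2 (ns_W_finite v2, section 3). -/

namespace Pool.Agent.Helper97.WF

open Finset

open Classical in
/-- GOOD ANTIDIAGONALS are dense: total number of bad pairs -/
theorem dense_good2 (c θ A : ℝ) (hθ : 0 < θ) (T : ℕ) (hT : 1 ≤ T) (hA : A ≤ c / 2 * θ ^ 2 * T ^ 2)
    (B₁ : Finset ℕ) (P : ℕ → ℕ → Prop) (Q : Finset (ℕ × ℕ)) (hQ : (Q.card : ℝ) ≤ A)
    (hPQ : ∀ l j, l + j ≤ 5 * T → l + j ∈ B₁ → P l j → (l, j) ∈ Q)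
    (hc : 0 < c)
    (hB : ∀ a b : ℕ, 2 * T ≤ a → a ≤ b → b ≤ 5 * T → θ * T ≤ (b : ℝ) - a →
      c * ((b : ℝ) - a) ≤ ((B₁.filter (fun N => a ≤ N ∧ N < b)).card : ℝ)) :
    ∀ a b : ℕ, 2 * T ≤ a → a ≤ b → b ≤ 5 * T → θ * T ≤ (b : ℝ) - a →
      c / 2 * ((b : ℝ) - a) ≤ (((B₁.filter (fun N => (((range (N + 1)).filter
        (fun l => P l (N - l))).card : ℝ) ≤ θ * T)).filter (fun N => a ≤ N ∧ N < b)).card : ℝ) := by
  intro a b ha hab hb hθab
  have hT' : (1 : ℝ) ≤ T := by exact_mod_cast hT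
  have hθT : 0 < θ * T := by positivity
  set bad := B₁.filter (fun N => N ≤ 5 * T ∧ θ * T < (((range (N + 1)).filter (fun l => P l (N - l))).card : ℝ))
    with hbad
  have h1 : (bad.card : ℝ) ≤ c / 2 * (θ * T) := by
    have a2 : (bad.card : ℝ) * (θ * T) ≤ Q.card := by
      have b1 : ∀ p ∈ Q.filter (fun p => p.1 + p.2 ∈ bad), p.1 + p.2 ∈ bad := by
        intro p hp
        exact (mem_filter.mp hp).2
      have b2 : (Q.filter (fun p => p.1 + p.2 ∈ bad)).card ≤ Q.card := card_filter_le _ _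
      have b3 : (bad.card : ℝ) * (θ * T) ≤ ((Q.filter (fun p => p.1 + p.2 ∈ bad)).card : ℝ) := by
        rw [card_eq_sum_card_fiberwise b1]
        push_cast
        rw [← nsmul_eq_mul, ← sum_const]
        apply sum_le_sum
        intro N hN
        have hN' := hN
        rw [hbad, mem_filter] at hN'
        refine hN'.2.2.le.trans ?_
        norm_cast
        apply card_le_card_of_injOn (fun l => (l, N - l))
        · intro l hl
          rw [mem_coe, mem_filter, mem_range] at hl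
          have e : l + (N - l) = N := by omega
          refine mem_coe.mpr ?_
          rw [mem_filter, mem_filter]
          refine ⟨⟨hPQ l (N - l) (by rw [e]; exact hN'.2.1) (by rw [e]; exact hN'.1) hl.2, ?_⟩, ?_⟩
          · show l + (N - l) ∈ bad
            rw [e]; exact hN
          · show l + (N - l) = N
            exact e
        · intro l _ l' _ h
          exact (Prod.ext_iff.mp h).1
      exact b3.trans (by exact_mod_cast b2)
    have a3 : (bad.card : ℝ) * (θ * T) ≤ c / 2 * (θ * T) * (θ * T) := by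
      refine (a2.trans (hQ.trans hA)).trans (le_of_eq ?_)
      ring
    exact le_of_mul_le_mul_right a3 hθT
  have h2 := hB a b ha hab hb hθab
  have h3 : B₁.filter (fun N => a ≤ N ∧ N < b) ⊆ ((B₁.filter (fun N => (((range (N + 1)).filter
        (fun l => P l (N - l))).card : ℝ) ≤ θ * T)).filter (fun N => a ≤ N ∧ N < b)) ∪ bad := by
    intro N hN
    rw [mem_filter] at hN
    rw [mem_union, mem_filter, mem_filter, hbad, mem_filter]
    rcases le_or_gt (((range (N + 1)).filter (fun l => P l (N - l))).card : ℝ) (θ * T) with h | h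
    · exact Or.inl ⟨⟨hN.1, h⟩, hN.2⟩
    · exact Or.inr ⟨hN.1, by omega, h⟩
  have h4 := (card_le_card h3).trans (card_union_le _ _)
  have h5 : ((B₁.filter (fun N => a ≤ N ∧ N < b)).card : ℝ) ≤
      (((B₁.filter (fun N => (((range (N + 1)).filter
        (fun l => P l (N - l))).card : ℝ) ≤ θ * T)).filter (fun N => a ≤ N ∧ N < b)).card : ℝ) + bad.card := by
    exact_mod_cast h4
  have h7 : c / 2 * (θ * T) ≤ c / 2 * ((b : ℝ) - a) := mul_le_mul_of_nonneg_left hθab (by positivity)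
  linarith

/-- comparison of `M` and `T = M / 8` -/
theorem M_T (θ : ℝ) (hθ : 0 < θ) (M : ℕ) (hM : 16 * (⌈1 / θ⌉₊ + 4) ≤ M) :
    4 ≤ M / 8 ∧ 1 ≤ θ * ((M / 8 : ℕ) : ℝ) ∧ (M : ℝ) ≤ 10 * ((M / 8 : ℕ) : ℝ) ∧ 8 * (M / 8) ≤ M ∧
      M / 2 + 1 ≤ 5 * (M / 8) := by
  have h1 : ⌈1 / θ⌉₊ + 4 ≤ M / 8 := by omega
  have h2 : (⌈1 / θ⌉₊ : ℝ) ≤ ((M / 8 : ℕ) : ℝ) := by
    have : ⌈1 / θ⌉₊ ≤ M / 8 := by omega
    exact_mod_cast this
  have h3 : 1 / θ ≤ ((M / 8 : ℕ) : ℝ) := (Nat.le_ceil _).trans h2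
  refine ⟨by omega, ?_, ?_, by omega, by omega⟩
  · rw [div_le_iff₀ hθ] at h3
    linarith
  · have : M ≤ 10 * (M / 8) := by omega
    exact_mod_cast this

open Classical in
/-- **DL1** -/
theorem DL1 (c ε' : ℝ) (hc : 0 < c) (hε' : 0 < ε') : ∃ ε : ℝ, 0 < ε ∧ ∃ M₀ : ℕ, ∀ M : ℕ, M₀ ≤ M →
    ∀ (R : ℝ), 0 < R → ∀ (e e' : ℕ → ℝ) (B : Finset ℕ),
    (∀ l, 0 ≤ e l ∧ e l ≤ 2 * R) → (∀ l, 0 ≤ e' l ∧ e' l ≤ 2 * R) →
    (∀ a b : ℕ, a ≤ b → b ≤ M → ε * M ≤ (b : ℝ) - a →
      c * ((b : ℝ) - a) ≤ ((B.filter (fun N => a ≤ N ∧ N < b)).card : ℝ)) →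
    (∀ N : ℕ, N ≤ M → R * ((N : ℝ) - ε * M) ≤ ∑ l ∈ range N, e l) →
    (∀ N : ℕ, N ≤ M → R * ((N : ℝ) - ε * M) ≤ ∑ l ∈ range N, e' l) →
    ((((range (M + 1) ×ˢ range (M + 1)).filter
      (fun p => p.1 + p.2 ∈ B ∧ 2 * R * (1 + ε) < e p.1 + e' p.2)).card : ℝ) ≤ ε * M ^ 2) →
    ((((range M).filter (fun l => ε * R < |e (l + 1) - e l|)).card : ℝ) ≤ ε * M) →
    ((((range (M / 2 + 1)).filter (fun l => ε' * R < |e l - R|)).card : ℝ) ≤ ε' * M) ∧
    ((((range (M / 2 + 1)).filter (fun l => ε' * R < |e' l - R|)).card : ℝ) ≤ ε' * M) := by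
  set K := 52 * (264 / (c / 2) + 3) + 4 with hK
  have hK0 : 0 < K := by positivity
  set θ := min (1 / 2) (ε' ^ 2 / K) with hθd
  have hθ : 0 < θ := lt_min (by norm_num) (by positivity)
  have hθ2 : θ ≤ 1 / 2 := min_le_left _ _
  have hθK : K * θ ≤ ε' ^ 2 := by
    have : θ ≤ ε' ^ 2 / K := min_le_right _ _
    rw [le_div_iff₀ hK0] at this
    linarith
  set ε := min (θ / 10) (c * θ ^ 2 / 200) with hεd
  have hε : 0 < ε := lt_min (by positivity) (by positivity)
  have hε1 : 10 * ε ≤ θ := by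
    have : ε ≤ θ / 10 := min_le_left _ _
    linarith
  have hε2 : 200 * ε ≤ c * θ ^ 2 := by
    have : ε ≤ c * θ ^ 2 / 200 := min_le_right _ _
    linarith
  refine ⟨ε, hε, 16 * (⌈1 / θ⌉₊ + 4), ?_⟩
  intro M hM R hR e e' B he he' hB hS hS' hpair hslow
  obtain ⟨hT4, h1, hMT, h8, h5⟩ := M_T θ hθ M hM
  set T := M / 8 with hT
  have hT1 : 1 ≤ T := by omega
  have hT' : (1 : ℝ) ≤ T := by exact_mod_cast hT1
  have hεM : ε * M ≤ θ * T := by
    have : ε * M ≤ ε * (10 * T) := mul_le_mul_of_nonneg_left hMT hε.le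
    nlinarith
  have hM2 : (M : ℝ) ^ 2 ≤ 100 * T ^ 2 := by
    have h0 : (0 : ℝ) ≤ M := Nat.cast_nonneg M
    nlinarith
  have hA : ε * (M : ℝ) ^ 2 ≤ c / 2 * θ ^ 2 * T ^ 2 := by
    have a1 : ε * (M : ℝ) ^ 2 ≤ ε * (100 * T ^ 2) := mul_le_mul_of_nonneg_left hM2 hε.le
    have a2 : 0 ≤ (T : ℝ) ^ 2 := by positivity
    nlinarith
  have hB1 : ∀ a b : ℕ, 2 * T ≤ a → a ≤ b → b ≤ 5 * T → θ * T ≤ (b : ℝ) - a →
      c * ((b : ℝ) - a) ≤ ((B.filter (fun N => a ≤ N ∧ N < b)).card : ℝ) := by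
    intro a b _ hab hb hθab
    exact hB a b hab (by omega) (hεM.trans hθab)
  have hB2 := dense_good2 c θ (ε * (M : ℝ) ^ 2) hθ T hT1 hA B (fun l j => 2 * R + θ * R < e l + e' j) _ hpair
    (by
      intro l j hlj hmem hP
      rw [mem_filter, mem_product, mem_range, mem_range]
      refine ⟨⟨?_, ?_⟩, hmem, ?_⟩
      · show l < M + 1
        omega
      · show j < M + 1
        omega
      · show 2 * R * (1 + ε) < e l + e' j
        refine lt_of_le_of_lt ?_ hP
        nlinarith) hc hB1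
  have hcore := num_core' (c / 2) (by positivity) T R θ hR.le hθ2 h1 e e' _ (fun l => (he l).1) (fun l => (he l).2)
    (fun l => (he' l).1) (fun l => (he' l).2)
    (by
      refine le_trans ?_ (hslow.trans hεM)
      norm_cast
      apply card_le_card
      intro l hl
      rw [mem_filter, mem_range] at hl ⊢
      refine ⟨by omega, ?_⟩
      rw [abs_sub_comm]
      refine lt_of_le_of_lt ?_ hl.2
      nlinarith)
    (by
      intro N hN
      refine le_trans ?_ (hS N (by omega))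
      nlinarith)
    (by
      intro N hN
      refine le_trans ?_ (hS' N (by omega))
      nlinarith)
    (by
      intro N hN _ _
      exact (mem_filter.mp hN).2) hB2
  have hfin : ∀ g : ℕ → ℝ, ∑ l ∈ range (5 * T), |g l - R| ≤ (52 * (264 / (c / 2) + 3) + 4) * θ * R * T →
      (((range (M / 2 + 1)).filter (fun l => ε' * R < |g l - R|)).card : ℝ) ≤ ε' * M := by
    intro g hg
    have a1 := card_le_of_sum (5 * T) (fun l => |g l - R|) (fun l => abs_nonneg _) _ (ε' * R) (by positivity) hg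
    have a2 : (((range (M / 2 + 1)).filter (fun l => ε' * R < |g l - R|)).card : ℝ) ≤
        (((range (5 * T)).filter (fun l => ε' * R < |g l - R|)).card : ℝ) := by
      norm_cast
      exact card_le_card (filter_subset_filter _ (range_mono (by omega)))
    refine (a2.trans a1).trans ?_
    rw [div_le_iff₀ (by positivity), ← hK]
    have a3 : (T : ℝ) ≤ M := by
      have : T ≤ M := by omega
      exact_mod_cast this
    have a4 : K * θ * (R * T) ≤ ε' ^ 2 * (R * T) := mul_le_mul_of_nonneg_right hθK (by positivity)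
    have a5 : ε' ^ 2 * (R * T) ≤ ε' ^ 2 * (R * M) := by
      apply mul_le_mul_of_nonneg_left _ (by positivity)
      exact mul_le_mul_of_nonneg_left a3 hR.le
    calc K * θ * R * T = K * θ * (R * T) := by ring
      _ ≤ ε' ^ 2 * (R * M) := a4.trans a5
      _ = ε' * M * (ε' * R) := by ring
  exact ⟨hfin e hcore.1, hfin e' hcore.2⟩

/-- truncated pseudo-metric -/
theorem trunc_tri {X : Type*} (d : X → X → ℝ) (hd0 : ∀ x y, 0 ≤ d x y) (hdt : ∀ x y z, d x z ≤ d x y + d y z) (r : ℝ)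
    (hr : 0 < r) (x y z : X) : min 1 (d x z / r) ≤ min 1 (d x y / r) + min 1 (d y z / r) := by
  have h1 : d x z / r ≤ d x y / r + d y z / r := by
    rw [← add_div]; exact div_le_div_of_nonneg_right (hdt x y z) hr.le
  have h2 : 0 ≤ d x y / r := div_nonneg (hd0 _ _) hr.le
  have h3 : 0 ≤ d y z / r := div_nonneg (hd0 _ _) hr.le
  rcases le_total 1 (d x y / r) with a | a
  · rw [min_eq_left a]
    have := min_le_left 1 (d x z / r)
    have h4 : 0 ≤ min 1 (d y z / r) := le_min zero_le_one h3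
    linarith
  · rcases le_total 1 (d y z / r) with b | b
    · rw [min_eq_left b]
      have := min_le_left 1 (d x z / r)
      have h4 : 0 ≤ min 1 (d x y / r) := le_min zero_le_one h2
      linarith
    · rw [min_eq_right a, min_eq_right b]
      exact (min_le_right _ _).trans h1

open Classical in
/-- **DL2** -/
theorem DL2 (c ε' : ℝ) (hc : 0 < c) (hε' : 0 < ε') : ∃ ε : ℝ, 0 < ε ∧ ∃ M₀ : ℕ, ∀ M : ℕ, M₀ ≤ M →
    ∀ (X : Type) (d : X → X → ℝ), (∀ x y, 0 ≤ d x y) → (∀ x, d x x = 0) → (∀ x y, d x y = d y x) →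
    (∀ x y z, d x z ≤ d x y + d y z) → ∀ (w r : ℝ), 0 < r → w ≤ ε * r →
    ∀ (th th' : ℕ → X) (B : Finset ℕ),
    (∀ a b : ℕ, a ≤ b → b ≤ M → ε * M ≤ (b : ℝ) - a →
      c * ((b : ℝ) - a) ≤ ((B.filter (fun N => a ≤ N ∧ N < b)).card : ℝ)) →
    ((((range (M + 1) ×ˢ range (M + 1)).filter
      (fun p => p.1 + p.2 ∈ B ∧ w < d (th p.1) (th' p.2))).card : ℝ) ≤ ε * M ^ 2) →
    ((((range M).filter (fun l => w < d (th l) (th (l + 1)))).card : ℝ) ≤ ε * M) →
    ∃ x0 : X,
    ((((range (M / 2 + 1)).filter (fun l => r < d (th l) x0)).card : ℝ) ≤ ε' * M) ∧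
    ((((range (M / 2 + 1)).filter (fun l => r < d (th' l) x0)).card : ℝ) ≤ ε' * M) := by
  set K := (264 / (c / 2) + 3) * 6 + 2 with hK
  have hK0 : 0 < K := by positivity
  set θ := min (1 / 2) (ε' / (2 * K)) with hθd
  have hθ : 0 < θ := lt_min (by norm_num) (by positivity)
  have hθ2 : θ ≤ 1 / 2 := min_le_left _ _
  have hθK : 2 * K * θ ≤ ε' := by
    have : θ ≤ ε' / (2 * K) := min_le_right _ _
    rw [le_div_iff₀ (by positivity)] at this
    linarith
  set ε := min (θ / 10) (c * θ ^ 2 / 200) with hεd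
  have hε : 0 < ε := lt_min (by positivity) (by positivity)
  have hε1 : 10 * ε ≤ θ := by
    have : ε ≤ θ / 10 := min_le_left _ _
    linarith
  have hε2 : 200 * ε ≤ c * θ ^ 2 := by
    have : ε ≤ c * θ ^ 2 / 200 := min_le_right _ _
    linarith
  refine ⟨ε, hε, 16 * (⌈1 / θ⌉₊ + 4), ?_⟩
  intro M hM X d hd0 hdd hds hdt w r hr hw th th' B hB hpair hslow
  obtain ⟨hT4, h1, hMT, h8, h5⟩ := M_T θ hθ M hM
  set T := M / 8 with hT
  have hT1 : 1 ≤ T := by omega
  have hT' : (1 : ℝ) ≤ T := by exact_mod_cast hT1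
  have hεM : ε * M ≤ θ * T := by
    have : ε * M ≤ ε * (10 * T) := mul_le_mul_of_nonneg_left hMT hε.le
    nlinarith
  have hM2 : (M : ℝ) ^ 2 ≤ 100 * T ^ 2 := by
    have h0 : (0 : ℝ) ≤ M := Nat.cast_nonneg M
    nlinarith
  have hA : ε * (M : ℝ) ^ 2 ≤ c / 2 * θ ^ 2 * T ^ 2 := by
    have a1 : ε * (M : ℝ) ^ 2 ≤ ε * (100 * T ^ 2) := mul_le_mul_of_nonneg_left hM2 hε.le
    have a2 : 0 ≤ (T : ℝ) ^ 2 := by positivity
    nlinarith
  have hB1 : ∀ a b : ℕ, 2 * T ≤ a → a ≤ b → b ≤ 5 * T → θ * T ≤ (b : ℝ) - a →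
      c * ((b : ℝ) - a) ≤ ((B.filter (fun N => a ≤ N ∧ N < b)).card : ℝ) := by
    intro a b _ hab hb hθab
    exact hB a b hab (by omega) (hεM.trans hθab)
  have hB2 := dense_good2 c θ (ε * (M : ℝ) ^ 2) hθ T hT1 hA B (fun l j => w < d (th l) (th' j)) _ hpair
    (by
      intro l j hlj hmem hP
      rw [mem_filter, mem_product, mem_range, mem_range]
      refine ⟨⟨?_, ?_⟩, hmem, hP⟩
      · show l < M + 1
        omega
      · show j < M + 1
        omega) hc hB1
  set B2 := B.filter (fun N => (((range (N + 1)).filter (fun l => w < d (th l) (th' (N - l)))).card : ℝ) ≤ θ * T)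
    with hB2d
  set D : X → X → ℝ := fun x y => min 1 (d x y / r) with hD
  have hD0 : ∀ x y, 0 ≤ D x y := fun x y => le_min zero_le_one (div_nonneg (hd0 _ _) hr.le)
  have hD1 : ∀ x y, D x y ≤ 1 := fun x y => min_le_left _ _
  have hDw : ∀ x y, d x y ≤ w → D x y ≤ θ := by
    intro x y h
    refine (min_le_right _ _).trans ?_
    rw [div_le_iff₀ hr]
    have : ε * r ≤ θ * r := mul_le_mul_of_nonneg_right (by linarith) hr.le
    linarith
  have hcount : ∀ (n : ℕ) (g g' : ℕ → X), n ≤ 5 * T →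
      (((range n).filter (fun l => w < d (g l) (g' l))).card : ℝ) ≤ θ * T →
      ∑ l ∈ range n, D (g l) (g' l) ≤ 6 * θ * T := by
    intro n g g' hn hc1
    have a1 : ∑ l ∈ range n, D (g l) (g' l) ≤ ∑ l ∈ range n, (θ + (if w < d (g l) (g' l) then 1 else 0)) := by
      apply sum_le_sum
      intro l _
      split_ifs with h
      · linarith [hD1 (g l) (g' l)]
      · push Not at h
        rw [add_zero]
        exact hDw _ _ h
    rw [sum_add_distrib, ← sum_filter, sum_const, sum_const, card_range, nsmul_eq_mul, nsmul_eq_mul, mul_one] at a1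
    have a2 : (n : ℝ) * θ ≤ 5 * T * θ := by
      apply mul_le_mul_of_nonneg_right _ hθ.le
      exact_mod_cast hn
    linarith
  have hβ : 0 ≤ 6 * θ * T := by positivity
  have hB4 : c / 2 * T ≤ ((B2.filter (fun N => 4 * T ≤ N ∧ N < 5 * T)).card : ℝ) := by
    have := hB2 (4 * T) (5 * T) (by omega) (by omega) le_rfl (by push_cast; nlinarith)
    refine le_trans (le_of_eq ?_) this
    push_cast; ring
  have hne : ∃ N ∈ B2, 2 * T ≤ N ∧ N < 3 * T :=
    dense_ne (c / 2) (by positivity) B2 (2 * T) (3 * T) (by omega)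
      (hB2 (2 * T) (3 * T) le_rfl (by omega) (by omega) (by push_cast; nlinarith))
  obtain ⟨x0, hx⟩ := gl_const D hD0 (fun x => by rw [hD]; beta_reduce; rw [hdd, zero_div]; exact min_eq_right zero_le_one)
    (fun x y => by rw [hD]; beta_reduce; rw [hds]) (fun x y z => trunc_tri d hd0 hdt r hr x y z) th th' T hT1
    (c / 2) (6 * θ * T) (by positivity) hβ B2 hB4
    (fun N hN _ hN2 => hcount (N + 1) th (fun l => th' (N - l)) (by omega) (mem_filter.mp hN).2)
    (by
      have := hcount (4 * T) th (fun l => th (l + 1)) (by omega) (by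
        refine le_trans ?_ (hslow.trans hεM)
        norm_cast
        apply card_le_card
        intro l hl
        rw [mem_filter, mem_range] at hl ⊢
        exact ⟨by omega, hl.2⟩)
      linarith) hne
  obtain ⟨N, hN, hN1, hN2, hN3⟩ := dense_top (c / 2) θ (by positivity) hθ2 T h1 B2 hB2
  obtain ⟨h6, h7⟩ := hx N hN hN1 hN2
  have hfin : ∀ g : ℕ → X, ∑ l ∈ range (N + 1), D (g l) x0 ≤ (264 / (c / 2) + 3) * (6 * θ * T) →
      (((range (M / 2 + 1)).filter (fun l => r < d (g l) x0)).card : ℝ) ≤ ε' * M := by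
    intro g hg
    have a1 := sum_top T N hN2 (fun l => D (g l) x0) _ 1 θ zero_le_one (fun l => hD1 _ _) hg hN3
    have a2 := card_le_of_sum (5 * T) (fun l => D (g l) x0) (fun l => hD0 _ _) _ (1 / 2) (by norm_num) a1
    have a3 : (((range (M / 2 + 1)).filter (fun l => r < d (g l) x0)).card : ℝ) ≤
        (((range (5 * T)).filter (fun l => 1 / 2 < D (g l) x0)).card : ℝ) := by
      norm_cast
      apply card_le_card
      intro l hl
      rw [mem_filter, mem_range] at hl ⊢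
      refine ⟨by omega, ?_⟩
      have b1 : 1 < d (g l) x0 / r := by rw [lt_div_iff₀ hr]; linarith [hl.2]
      rw [hD]; beta_reduce
      rw [min_eq_left b1.le]; norm_num
    refine (a3.trans a2).trans ?_
    have a4 : (T : ℝ) ≤ M := by
      have : T ≤ M := by omega
      exact_mod_cast this
    calc ((264 / (c / 2) + 3) * (6 * θ * T) + 2 * θ * T * 1) / (1 / 2) = 2 * K * θ * T := by rw [hK]; ring
      _ ≤ ε' * T := mul_le_mul_of_nonneg_right hθK (by linarith)
      _ ≤ ε' * M := mul_le_mul_of_nonneg_left a4 hε'.le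
  exact ⟨x0, hfin th h6, hfin th' h7⟩

end Pool.Agent.Helper97.WF
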