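import Mathlib

/-! Lemma W, part II, combinatorial core: graph lemma in metric form, constancy of a function into a pseudo-metric
space which is compared with a second one along antidiagonals, numeric core, density of the good antidiagonals. -/

namespace Pool.Agent.Helper97.WF

open Finset

/-- adjacency by a difference of `B` -/
def Adj (B : Finset ℕ) (s s' : ℕ) : Prop := ∃ b ∈ B, ∃ b' ∈ B, b' = b + (s' - s)

/-- independent sets -/
def Ind (B I : Finset ℕ) : Prop := ∀ s ∈ I, ∀ s' ∈ I, s < s' → ¬ Adj B s s'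

/-- size of independent sets -/
theorem ind_card (T a0 : ℕ) (B : Finset ℕ) (hB : ∀ b ∈ B, a0 ≤ b ∧ b < a0 + T) (I : Finset ℕ)
    (hI : I ⊆ range (T + 1)) (h : Ind B I) : I.card * B.card ≤ 2 * T := by
  rw [← card_product]
  have h1 : (I ×ˢ B).card ≤ (Ico a0 (a0 + 2 * T)).card := by
    apply card_le_card_of_injOn (fun p => p.1 + p.2)
    · intro p hp
      rw [mem_coe, mem_product] at hp
      have h2 := mem_range.mp (hI hp.1)
      have h3 := hB _ hp.2
      have h4 : a0 ≤ p.1 + p.2 ∧ p.1 + p.2 < a0 + 2 * T := by omega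
      exact mem_coe.mpr (mem_Ico.mpr h4)
    · intro p hp q hq hpq
      rw [mem_coe, mem_product] at hp hq
      have h4 : p.1 + p.2 = q.1 + q.2 := hpq
      rcases lt_trichotomy p.1 q.1 with h5 | h5 | h5
      · exact absurd ⟨q.2, hq.2, p.2, hp.2, by omega⟩ (h _ hp.1 _ hq.1 h5)
      · exact Prod.ext h5 (by omega)
      · exact absurd ⟨p.2, hp.2, q.2, hq.2, by omega⟩ (h _ hq.1 _ hp.1 h5)
  rw [Nat.card_Ico] at h1
  omega

/-- maximal independent sets exist -/
theorem exists_maxInd (T : ℕ) (B : Finset ℕ) : ∃ I : Finset ℕ, I ⊆ range (T + 1) ∧ Ind B I ∧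
    ∀ s ∈ range (T + 1), s ∈ I ∨ ∃ i ∈ I, (s < i ∧ Adj B s i) ∨ (i < s ∧ Adj B i s) := by
  classical
  obtain ⟨I, hI, hmax⟩ := exists_max_image ((range (T + 1)).powerset.filter (fun I => Ind B I)) card
    ⟨∅, by rw [mem_filter, mem_powerset]; exact ⟨empty_subset _, fun s hs => absurd hs (notMem_empty s)⟩⟩
  rw [mem_filter, mem_powerset] at hI
  refine ⟨I, hI.1, hI.2, ?_⟩
  intro s hs
  by_contra hcon
  push Not at hcon
  obtain ⟨hsI, hno⟩ := hcon
  have h1 : insert s I ∈ (range (T + 1)).powerset.filter (fun I => Ind B I) := by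
    rw [mem_filter, mem_powerset]
    refine ⟨insert_subset hs hI.1, ?_⟩
    intro a ha b hb hab
    rw [mem_insert] at ha hb
    rcases ha with rfl | ha
    · rcases hb with rfl | hb
      · exact absurd hab (lt_irrefl _)
      · exact (hno b hb).1 hab
    · rcases hb with rfl | hb
      · exact (hno a ha).2 hab
      · exact hI.2 a ha b hb hab
  have h2 := hmax _ h1
  rw [card_insert_of_notMem hsI] at h2
  omega

/-- GRAPH LEMMA in metric form -/
theorem graph_metric (T a0 : ℕ) (c α : ℝ) (hT : 1 ≤ T) (hc : 0 < c) (hα : 0 ≤ α) (B : Finset ℕ)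
    (hB : ∀ b ∈ B, a0 ≤ b ∧ b < a0 + T) (hcard : c * T ≤ B.card)
    (D : ℕ → ℕ → ℝ) (hs : ∀ s s', D s s' = D s' s) (ht : ∀ s s' s'', D s s'' ≤ D s s' + D s' s'')
    (h0 : ∀ s, D s s ≤ 0) (h1 : ∀ s, s < T → D s (s + 1) ≤ α)
    (h2 : ∀ s s', s < s' → s' ≤ T → Adj B s s' → D s s' ≤ α) :
    ∀ s s', s ≤ T → s' ≤ T → D s s' ≤ 6 / c * α := by
  classical
  obtain ⟨I, hI, hind, hmax⟩ := exists_maxInd T B
  have hcI := ind_card T a0 B hB I hI hind
  have hcI' : (I.card : ℝ) ≤ 2 / c := by
    rw [le_div_iff₀ hc]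
    have a1 : (I.card : ℝ) * B.card ≤ 2 * T := by exact_mod_cast hcI
    have a2 : (0 : ℝ) < T := by exact_mod_cast hT
    have a3 : (I.card : ℝ) * (c * T) ≤ (I.card : ℝ) * B.card := mul_le_mul_of_nonneg_left hcard (Nat.cast_nonneg _)
    have a4 : (I.card : ℝ) * c * T ≤ 2 * T := by nlinarith
    exact le_of_mul_le_mul_right a4 a2
  have h3 : ∀ s, ∃ i, s ≤ T → i ∈ I ∧ D s i ≤ α := by
    intro s
    by_cases hsT : s ≤ T
    · rcases hmax s (mem_range.mpr (by omega)) with h4 | ⟨i, hi, h4⟩
      · exact ⟨s, fun _ => ⟨h4, (h0 s).trans hα⟩⟩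
      · refine ⟨i, fun _ => ⟨hi, ?_⟩⟩
        have hiT := mem_range.mp (hI hi)
        rcases h4 with ⟨h5, h6⟩ | ⟨h5, h6⟩
        · exact h2 s i h5 (by omega) h6
        · rw [hs]; exact h2 i s h5 hsT h6
    · exact ⟨0, fun h => absurd h hsT⟩
  choose ι hι using h3
  have h4 : ∀ n s s', s' - s ≤ n → s ≤ s' → s' ≤ T → D s s' ≤ 3 * α * ((Icc s s').image ι).card := by
    intro n
    induction n with
    | zero =>
      intro s s' a b _
      have : s = s' := by omega
      subst this
      exact (h0 s).trans (by positivity)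
    | succ n ih =>
      intro s s' a b hsT
      obtain ⟨s₁, hs₁, hmx⟩ := exists_max_image ((Icc s s').filter (fun r => ι r = ι s)) id
        ⟨s, by rw [mem_filter, mem_Icc]; exact ⟨⟨le_rfl, b⟩, rfl⟩⟩
      rw [mem_filter, mem_Icc] at hs₁
      have e1 := hι s (by omega)
      have e2 := hι s₁ (by omega)
      have e3 : D s s₁ ≤ 2 * α := by
        have := ht s (ι s) s₁
        have e4 : D (ι s) s₁ ≤ α := by rw [hs, ← hs₁.2]; exact e2.2
        linarith [e1.2]
      have hne : ι s ∈ (Icc s s').image ι := mem_image_of_mem _ (mem_Icc.mpr ⟨le_rfl, b⟩)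
      rcases Nat.lt_or_ge s₁ s' with e4 | e4
      · have e5 := ih (s₁ + 1) s' (by omega) (by omega) hsT
        have e6 := h1 s₁ (by omega)
        have e7 := ht s s₁ s'
        have e8 := ht s₁ (s₁ + 1) s'
        have e9 : ((Icc (s₁ + 1) s').image ι).card + 1 ≤ ((Icc s s').image ι).card := by
          have f1 : ι s ∉ (Icc (s₁ + 1) s').image ι := by
            intro f2
            obtain ⟨r, hr, f3⟩ := mem_image.mp f2
            rw [mem_Icc] at hr
            have f4 := hmx r (by rw [mem_filter, mem_Icc]; exact ⟨⟨by omega, hr.2⟩, f3⟩)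
            have f5 : r ≤ s₁ := f4
            omega
          rw [← card_insert_of_notMem f1]
          apply card_le_card
          apply insert_subset hne
          apply image_subset_image
          intro r hr
          rw [mem_Icc] at hr ⊢
          omega
        have e10 : (((Icc (s₁ + 1) s').image ι).card : ℝ) + 1 ≤ ((Icc s s').image ι).card := by exact_mod_cast e9
        nlinarith
      · have e5 : s₁ = s' := by omega
        subst e5
        have e6 : 1 ≤ ((Icc s s₁).image ι).card := card_pos.mpr ⟨_, hne⟩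
        have e7 : (1 : ℝ) ≤ ((Icc s s₁).image ι).card := by exact_mod_cast e6
        nlinarith
  have h5 : ∀ s s', s ≤ s' → s' ≤ T → D s s' ≤ 6 / c * α := by
    intro s s' a b
    have e1 := h4 (s' - s) s s' le_rfl a b
    have e2 : ((Icc s s').image ι).card ≤ I.card := by
      apply card_le_card
      intro i hi
      obtain ⟨r, hr, rfl⟩ := mem_image.mp hi
      rw [mem_Icc] at hr
      exact (hι r (by omega)).1
    have e3 : (((Icc s s').image ι).card : ℝ) ≤ 2 / c := le_trans (by exact_mod_cast e2) hcI'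
    calc D s s' ≤ 3 * α * ((Icc s s').image ι).card := e1
      _ ≤ 3 * α * (2 / c) := mul_le_mul_of_nonneg_left e3 (by positivity)
      _ = 6 / c * α := by ring
  intro s s' a b
  rcases le_total s s' with h | h
  · exact h5 s s' h b
  · rw [hs]; exact h5 s' s h a

/-- a shifted sum of a nonnegative function -/
theorem shift_sum (g : ℕ → ℝ) (hg : ∀ l, 0 ≤ g l) (a s b : ℕ) (h : a + s ≤ b) :
    ∑ l ∈ range a, g (l + s) ≤ ∑ l ∈ range b, g l := by
  have h1 : ∑ l ∈ range a, g (l + s) = ∑ l ∈ Ico s (a + s), g l := by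
    rw [Finset.sum_Ico_eq_sum_range]
    have : a + s - s = a := by omega
    rw [this]
    exact sum_congr rfl (fun l _ => by rw [add_comm])
  rw [h1]
  apply sum_le_sum_of_subset_of_nonneg
  · intro l hl
    rw [mem_Ico] at hl
    rw [mem_range]
    omega
  · intro l _ _; exact hg l

section Gcore

variable {X : Type*} (d : X → X → ℝ) (hd0 : ∀ x y, 0 ≤ d x y) (hdd : ∀ x, d x x = 0)
  (hds : ∀ x y, d x y = d y x) (hdt : ∀ x y z, d x z ≤ d x y + d y z)
  (f f' : ℕ → X) (T : ℕ) (hT : 1 ≤ T) (c β : ℝ) (hc : 0 < c) (hβ : 0 ≤ β) (B : Finset ℕ)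
  (hB : c * T ≤ (B.filter (fun N => 4 * T ≤ N ∧ N < 5 * T)).card)
  (h1 : ∀ N ∈ B, 2 * T ≤ N → N < 5 * T → ∑ l ∈ range (N + 1), d (f l) (f' (N - l)) ≤ β)
  (h2 : ∑ l ∈ range (4 * T), d (f l) (f (l + 1)) ≤ 2 * β)

include hd0 hdd hds hdt hT hc hβ hB h1 h2

/-- shifts by at most `T` move `f` little -/
theorem gl_shift (s s' : ℕ) (hs : s ≤ T) (hs' : s' ≤ T) :
    ∑ l ∈ range (2 * T), d (f (l + s)) (f (l + s')) ≤ 12 / c * β := by
  have h3 := graph_metric T (4 * T) c (2 * β) hT hc (by positivity)
    (B.filter (fun N => 4 * T ≤ N ∧ N < 5 * T)) (by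
      intro b hb
      rw [mem_filter] at hb
      constructor <;> omega) hB (fun s s' => ∑ l ∈ range (2 * T), d (f (l + s)) (f (l + s')))
    (by
      intro s s'
      exact sum_congr rfl (fun l _ => hds _ _))
    (by
      intro s s' s''
      rw [← sum_add_distrib]
      exact sum_le_sum (fun l _ => hdt _ _ _))
    (by
      intro s
      exact le_of_eq (sum_eq_zero (fun l _ => hdd _)))
    (by
      intro s hs
      refine le_trans ?_ h2
      have := shift_sum (fun l => d (f l) (f (l + 1))) (fun l => hd0 _ _) (2 * T) s (4 * T) (by omega)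
      refine le_trans (le_of_eq ?_) this
      apply sum_congr rfl
      intro l _
      have e : l + s + 1 = l + (s + 1) := by omega
      rw [e])
    (by
      intro s s' hss hsT hadj
      obtain ⟨N₁, hN₁, N₂, hN₂, e⟩ := hadj
      rw [mem_filter] at hN₁ hN₂
      have a1 := h1 N₁ hN₁.1 (by omega) hN₁.2.2
      have a2 := h1 N₂ hN₂.1 (by omega) hN₂.2.2
      have b1 := shift_sum (fun l => d (f l) (f' (N₁ - l))) (fun l => hd0 _ _) (2 * T) s (N₁ + 1) (by omega)
      have b2 := shift_sum (fun l => d (f l) (f' (N₂ - l))) (fun l => hd0 _ _) (2 * T) s' (N₂ + 1) (by omega)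
      have b3 : ∑ l ∈ range (2 * T), d (f (l + s)) (f (l + s')) ≤
          ∑ l ∈ range (2 * T), d (f (l + s)) (f' (N₁ - (l + s))) +
          ∑ l ∈ range (2 * T), d (f (l + s')) (f' (N₂ - (l + s'))) := by
        rw [← sum_add_distrib]
        apply sum_le_sum
        intro l hl
        rw [mem_range] at hl
        have e1 : N₂ - (l + s') = N₁ - (l + s) := by omega
        rw [e1, hds (f (l + s')) _]
        exact hdt _ _ _
      beta_reduce at b1 b2
      linarith)
  have h4 := h3 s s' hs hs'
  beta_reduce at h4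
  calc _ ≤ 6 / c * (2 * β) := h4
    _ = 12 / c * β := by ring

/-- `f` is nearly constant on `[0, 3 T)` -/
theorem gl_const3 : ∃ l0 : ℕ, ∑ l ∈ range (3 * T), d (f l) (f l0) ≤ 132 / c * β := by
  have hK := gl_shift d hd0 hdd hds hdt f f' T hT c β hc hβ B hB h1 h2
  set K := 12 / c * β with hKdef
  have hK0 : 0 ≤ K := by positivity
  have hT' : (0 : ℝ) < T := by exact_mod_cast hT
  -- a block with a centre
  have h3 : ∃ l ∈ range (2 * T), ∑ s ∈ range T, ∑ s' ∈ range T, d (f (l + s')) (f (l + s)) ≤ T * K := by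
    apply exists_le_of_sum_le (Finset.nonempty_range_iff.mpr (by omega))
    have a1 : ∑ l ∈ range (2 * T), ∑ s ∈ range T, ∑ s' ∈ range T, d (f (l + s')) (f (l + s)) ≤ T * (T * K) := by
      rw [sum_comm]
      calc _ ≤ ∑ s ∈ range T, (T * K) := by
            apply sum_le_sum
            intro s hs
            rw [sum_comm]
            calc _ ≤ ∑ s' ∈ range T, K := by
                  apply sum_le_sum
                  intro s' hs'
                  rw [mem_range] at hs hs'
                  exact hK s' s (by omega) (by omega)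
              _ = T * K := by rw [sum_const, card_range, nsmul_eq_mul]
        _ = T * (T * K) := by rw [sum_const, card_range, nsmul_eq_mul]
    refine a1.trans ?_
    rw [sum_const, card_range, nsmul_eq_mul]
    push_cast
    have : 0 ≤ (T : ℝ) * (T * K) := by positivity
    linarith
  obtain ⟨l, hl, h4⟩ := h3
  have h5 : ∃ s ∈ range T, ∑ s' ∈ range T, d (f (l + s')) (f (l + s)) ≤ K := by
    apply exists_le_of_sum_le (Finset.nonempty_range_iff.mpr (by omega))
    rw [sum_const, card_range, nsmul_eq_mul]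
    exact h4
  obtain ⟨s, hs, h6⟩ := h5
  rw [mem_range] at hl hs
  refine ⟨l + s, ?_⟩
  -- first block
  have h7 : ∑ i ∈ range T, d (f i) (f (i + l)) ≤ 2 * K := by
    rcases Nat.lt_or_ge l (T + 1) with hlT | hlT
    · have a1 := hK 0 l (by omega) (by omega)
      have a2 : ∑ i ∈ range T, d (f i) (f (i + l)) ≤ ∑ i ∈ range (2 * T), d (f i) (f (i + l)) :=
        sum_le_sum_of_subset_of_nonneg (range_mono (by omega)) (fun _ _ _ => hd0 _ _)
      simp only [add_zero] at a1
      linarith
    · have a1 := hK 0 T (by omega) (by omega)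
      have a2 : ∑ i ∈ range T, d (f i) (f (i + T)) ≤ ∑ i ∈ range (2 * T), d (f i) (f (i + T)) :=
        sum_le_sum_of_subset_of_nonneg (range_mono (by omega)) (fun _ _ _ => hd0 _ _)
      simp only [add_zero] at a1
      have a3 := hK 0 (l - T) (by omega) (by omega)
      simp only [add_zero] at a3
      have a4 := shift_sum (fun i => d (f i) (f (i + (l - T)))) (fun _ => hd0 _ _) T T (2 * T) (by omega)
      beta_reduce at a4
      have a5 : ∑ i ∈ range T, d (f i) (f (i + l)) ≤
          ∑ i ∈ range T, d (f i) (f (i + T)) + ∑ i ∈ range T, d (f (i + T)) (f (i + T + (l - T))) := by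
        rw [← sum_add_distrib]
        apply sum_le_sum
        intro i _
        have e : i + T + (l - T) = i + l := by omega
        rw [e]
        exact hdt _ _ _
      linarith
  have h8 : ∑ i ∈ range T, d (f i) (f (l + s)) ≤ 3 * K := by
    have a1 : ∑ i ∈ range T, d (f i) (f (l + s)) ≤
        ∑ i ∈ range T, d (f i) (f (i + l)) + ∑ i ∈ range T, d (f (l + i)) (f (l + s)) := by
      rw [← sum_add_distrib]
      apply sum_le_sum
      intro i _
      have e : i + l = l + i := by omega
      rw [e]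
      exact hdt _ _ _
    linarith
  have h9 := hK 0 T (by omega) (by omega)
  simp only [add_zero] at h9
  have h10 : ∑ i ∈ range T, d (f (T + i)) (f (l + s)) ≤ 4 * K := by
    have a1 : ∑ i ∈ range T, d (f (T + i)) (f (l + s)) ≤
        ∑ i ∈ range T, d (f i) (f (i + T)) + ∑ i ∈ range T, d (f i) (f (l + s)) := by
      rw [← sum_add_distrib]
      apply sum_le_sum
      intro i _
      have e : T + i = i + T := by omega
      rw [e, hds (f i) (f (i + T))]
      exact hdt _ _ _
    have a2 : ∑ i ∈ range T, d (f i) (f (i + T)) ≤ ∑ i ∈ range (2 * T), d (f i) (f (i + T)) :=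
      sum_le_sum_of_subset_of_nonneg (range_mono (by omega)) (fun _ _ _ => hd0 _ _)
    linarith
  have h11 : ∑ i ∈ range T, d (f (2 * T + i)) (f (l + s)) ≤ 4 * K := by
    -- shift by 2 T in two steps, first block
    have a1 : ∑ i ∈ range T, d (f (2 * T + i)) (f (l + s)) ≤
        ∑ i ∈ range T, d (f (i + T)) (f (i + T + T)) + ∑ i ∈ range T, d (f (T + i)) (f (l + s)) := by
      rw [← sum_add_distrib]
      apply sum_le_sum
      intro i _
      have e : 2 * T + i = i + T + T := by omega
      have e' : T + i = i + T := by omega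
      rw [e, e', hds (f (i + T)) (f (i + T + T))]
      exact hdt _ _ _
    have a2 := shift_sum (fun i => d (f i) (f (i + T))) (fun _ => hd0 _ _) T T (2 * T) (by omega)
    beta_reduce at a2
    have a3 : ∑ i ∈ range T, d (f i) (f (i + T)) + ∑ i ∈ range T, d (f (i + T)) (f (i + T + T)) ≤ K := by
      have e : ∑ i ∈ range (2 * T), d (f i) (f (i + T)) =
          ∑ i ∈ range T, d (f i) (f (i + T)) + ∑ i ∈ range T, d (f (i + T)) (f (i + T + T)) := by
        rw [two_mul, sum_range_add]
        congr 1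
        apply sum_congr rfl
        intro i _
        have e1 : T + i = i + T := by omega
        rw [e1]
      rw [← e]; exact h9
    have a4 : ∑ i ∈ range T, d (f (T + i)) (f (l + s)) ≤
        ∑ i ∈ range T, d (f i) (f (i + T)) + ∑ i ∈ range T, d (f i) (f (l + s)) := by
      rw [← sum_add_distrib]
      apply sum_le_sum
      intro i _
      have e : T + i = i + T := by omega
      rw [e, hds (f i) (f (i + T))]
      exact hdt _ _ _
    linarith
  have h12 : ∑ i ∈ range (3 * T), d (f i) (f (l + s)) =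
      ∑ i ∈ range T, d (f i) (f (l + s)) + ∑ i ∈ range T, d (f (T + i)) (f (l + s)) +
        ∑ i ∈ range T, d (f (2 * T + i)) (f (l + s)) := by
    have e1 : 3 * T = 2 * T + T := by omega
    rw [e1, sum_range_add, two_mul, sum_range_add]
  rw [h12]
  calc _ ≤ 3 * K + 4 * K + 4 * K := add_le_add (add_le_add h8 h10) h11
    _ = 132 / c * β := by rw [hKdef]; ring

/-- `f` and `f'` are nearly constant, with the same value -/
theorem gl_const (hne : ∃ N ∈ B, 2 * T ≤ N ∧ N < 3 * T) : ∃ x0 : X, ∀ N ∈ B, 4 * T ≤ N → N < 5 * T →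
    ∑ l ∈ range (N + 1), d (f l) x0 ≤ (264 / c + 3) * β ∧ ∑ l ∈ range (N + 1), d (f' l) x0 ≤ (264 / c + 3) * β := by
  obtain ⟨l0, h3⟩ := gl_const3 d hd0 hdd hds hdt f f' T hT c β hc hβ B hB h1 h2
  refine ⟨f l0, ?_⟩
  -- reflection
  have refl : ∀ N (g : ℕ → X), ∑ l ∈ range (N + 1), d (g (N - l)) (f l0) = ∑ l ∈ range (N + 1), d (g l) (f l0) := by
    intro N g
    have := Finset.sum_range_reflect (fun l => d (g l) (f l0)) (N + 1)
    rw [← this]
    apply sum_congr rfl
    intro l hl
    have e : N + 1 - 1 - l = N - l := by omega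
    rw [e]
  have half : ∀ N, N ∈ B → 2 * T ≤ N → N < 5 * T → ∀ a, a ≤ N + 1 →
      ∑ l ∈ range a, d (f' l) (f l0) ≤ β + ∑ l ∈ Ico (N + 1 - a) (N + 1), d (f l) (f l0) := by
    intro N hN hN1 hN2 a ha
    have a1 := h1 N hN hN1 hN2
    have a2 : ∑ l ∈ Ico (N + 1 - a) (N + 1), d (f' (N - l)) (f l0) = ∑ l ∈ range a, d (f' l) (f l0) := by
      have e0 := Finset.sum_Ico_reflect (fun l => d (f' (N - l)) (f l0)) 0 (n := N) (m := a) ha
      rw [Nat.sub_zero] at e0
      rw [← e0, Finset.range_eq_Ico]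
      apply sum_congr rfl
      intro l hl
      rw [mem_Ico] at hl
      have e1 : N - (N - l) = l := by omega
      rw [e1]
    rw [← a2]
    have a3 : ∑ l ∈ Ico (N + 1 - a) (N + 1), d (f l) (f' (N - l)) ≤ β := by
      refine le_trans ?_ a1
      apply sum_le_sum_of_subset_of_nonneg
      · intro l hl
        rw [mem_Ico] at hl
        exact mem_range.mpr hl.2
      · intro l _ _; exact hd0 _ _
    have a4 : ∑ l ∈ Ico (N + 1 - a) (N + 1), d (f' (N - l)) (f l0) ≤
        ∑ l ∈ Ico (N + 1 - a) (N + 1), d (f l) (f' (N - l)) + ∑ l ∈ Ico (N + 1 - a) (N + 1), d (f l) (f l0) := by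
      rw [← sum_add_distrib]
      apply sum_le_sum
      intro l _
      rw [hds (f l) (f' (N - l))]
      exact hdt _ _ _
    linarith
  obtain ⟨N₀, hN₀, hN₀1, hN₀2⟩ := hne
  -- `f'` on `[0, 2 T)`
  have h4 : ∑ l ∈ range (2 * T), d (f' l) (f l0) ≤ β + 132 / c * β := by
    have a1 := half N₀ hN₀ hN₀1 (by omega) (2 * T) (by omega)
    have a2 : ∑ l ∈ Ico (N₀ + 1 - 2 * T) (N₀ + 1), d (f l) (f l0) ≤ ∑ l ∈ range (3 * T), d (f l) (f l0) := by
      apply sum_le_sum_of_subset_of_nonneg
      · intro l hl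
        rw [mem_Ico] at hl
        exact mem_range.mpr (by omega)
      · intro l _ _; exact hd0 _ _
    linarith
  intro N hN hN1 hN2
  have a0 := h1 N hN (by omega) hN2
  -- `f` on `[3 T, N]`
  have h5 : ∑ l ∈ Ico (3 * T) (N + 1), d (f l) (f l0) ≤ β + (β + 132 / c * β) := by
    have a1 : ∑ l ∈ Ico (3 * T) (N + 1), d (f l) (f' (N - l)) ≤ β := by
      refine le_trans ?_ a0
      apply sum_le_sum_of_subset_of_nonneg
      · intro l hl
        rw [mem_Ico] at hl
        exact mem_range.mpr hl.2
      · intro l _ _; exact hd0 _ _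
    have a2 : ∑ l ∈ Ico (3 * T) (N + 1), d (f' (N - l)) (f l0) ≤ ∑ l ∈ range (2 * T), d (f' l) (f l0) := by
      have e0 := Finset.sum_Ico_reflect (fun l => d (f' (N - l)) (f l0)) 0 (n := N) (m := N + 1 - 3 * T) (by omega)
      rw [Nat.sub_zero] at e0
      have e1 : N + 1 - (N + 1 - 3 * T) = 3 * T := by omega
      rw [e1] at e0
      rw [← e0]
      calc _ = ∑ l ∈ Ico 0 (N + 1 - 3 * T), d (f' l) (f l0) := by
            apply sum_congr rfl
            intro l hl
            rw [mem_Ico] at hl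
            have e1 : N - (N - l) = l := by omega
            rw [e1]
        _ ≤ _ := by
            apply sum_le_sum_of_subset_of_nonneg
            · intro l hl
              rw [mem_Ico] at hl
              exact mem_range.mpr (by omega)
            · intro l _ _; exact hd0 _ _
    have a3 : ∑ l ∈ Ico (3 * T) (N + 1), d (f l) (f l0) ≤
        ∑ l ∈ Ico (3 * T) (N + 1), d (f l) (f' (N - l)) + ∑ l ∈ Ico (3 * T) (N + 1), d (f' (N - l)) (f l0) := by
      rw [← sum_add_distrib]
      apply sum_le_sum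
      intro l _
      exact hdt _ _ _
    linarith
  have h6 : ∑ l ∈ range (N + 1), d (f l) (f l0) ≤ 132 / c * β + (β + (β + 132 / c * β)) := by
    have e : ∑ l ∈ range (N + 1), d (f l) (f l0) =
        ∑ l ∈ range (3 * T), d (f l) (f l0) + ∑ l ∈ Ico (3 * T) (N + 1), d (f l) (f l0) :=
      (Finset.sum_range_add_sum_Ico _ (by omega)).symm
    rw [e]
    linarith
  have h7 := half N hN (by omega) hN2 (N + 1) le_rfl
  rw [Nat.sub_self, ← Finset.range_eq_Ico] at h7
  have h8 : 264 / c * β = 2 * (132 / c * β) := by ring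
  have h9 : 0 ≤ 132 / c * β := by positivity
  constructor
  · have : (264 / c + 3) * β = 264 / c * β + 3 * β := by ring
    rw [this, h8]; linarith
  · have : (264 / c + 3) * β = 264 / c * β + 3 * β := by ring
    rw [this, h8]; linarith

end Gcore

end Pool.Agent.Helper97.WF
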